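import Mathlib

/-!
# Row ORZQd (project OR, block Z): quadratic descent for the equation `c Y^p = a Y - b`

`L` a field of characteristic `p ≠ 2`, `K` a subfield, `v² ∈ K`.
* `quad_closure`: if every `s ∈ S` has the form `x + y v` (`x, y ∈ K`) so has every element of the subfield
  generated by `S`.  `Subfield.closure_induction`; product: `(x+yv)(x'+y'v) = xx' + yy'v² + (xy'+yx')v`; inverse: if
  `v ∈ K` then `z = x + y v ∈ K` and `z⁻¹ = z⁻¹ + 0 v`; if `v ∉ K` and `z ≠ 0` then `x² - y² v² ≠ 0` (otherwise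
  `(x+yv)(x-yv) = 0`, so `x = y v`, `z ≠ 0` forces `y ≠ 0` [`y = 0` gives `x = 0`], `v = x/y ∈ K`) and
  `z⁻¹ = (x - y v)/(x² - y² v²)`; `z = 0` trivial.
* `quad_desc`: if `v ∈ K`, take `Y` itself.  Otherwise `Y^p = x^p + y^p v^p` (`add_pow_char`, `mul_pow`),
  `v^p = (v²)^m v`, `p = 2m+1`; the equation is `(c x^p - a x + b) + (c y^p (v²)^m - a y) v = 0` with both brackets
  in `K`; the second is `0` (else `v ∈ K`), so the first is `0`.
-/

namespace Pool.Agent.H68.OR

theorem quad_closure {L : Type*} [Field L] (K : Subfield L) (v : L) (hv : v ^ 2 ∈ K) (S : Set L)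
    (hS : ∀ s ∈ S, ∃ x ∈ K, ∃ y ∈ K, s = x + y * v) (z : L) (hz : z ∈ Subfield.closure S) :
    ∃ x ∈ K, ∃ y ∈ K, z = x + y * v := by
  induction hz using Subfield.closure_induction with
  | mem s hs => exact hS s hs
  | one => exact ⟨1, K.one_mem, 0, K.zero_mem, by simp⟩
  | add a b _ _ iha ihb =>
    obtain ⟨x, hx, y, hy, rfl⟩ := iha
    obtain ⟨x', hx', y', hy', rfl⟩ := ihb
    exact ⟨x + x', K.add_mem hx hx', y + y', K.add_mem hy hy', by ring⟩
  | neg a _ iha =>
    obtain ⟨x, hx, y, hy, rfl⟩ := iha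
    exact ⟨-x, K.neg_mem hx, -y, K.neg_mem hy, by ring⟩
  | mul a b _ _ iha ihb =>
    obtain ⟨x, hx, y, hy, rfl⟩ := iha
    obtain ⟨x', hx', y', hy', rfl⟩ := ihb
    exact ⟨x * x' + y * y' * v ^ 2,
      K.add_mem (K.mul_mem hx hx') (K.mul_mem (K.mul_mem hy hy') hv),
      x * y' + y * x', K.add_mem (K.mul_mem hx hy') (K.mul_mem hy hx'), by ring⟩
  | inv a _ iha =>
    obtain ⟨x, hx, y, hy, rfl⟩ := iha
    by_cases hvK : v ∈ K
    · exact ⟨(x + y * v)⁻¹, K.inv_mem (K.add_mem hx (K.mul_mem hy hvK)), 0, K.zero_mem, by simp⟩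
    · by_cases hz0 : x + y * v = 0
      · exact ⟨0, K.zero_mem, 0, K.zero_mem, by simp [hz0]⟩
      · have hn : x ^ 2 - y ^ 2 * v ^ 2 ≠ 0 := by
          intro h0
          have h1 : (x + y * v) * (x - y * v) = 0 := by rw [← h0]; ring
          rcases mul_eq_zero.1 h1 with h | h
          · exact hz0 h
          · have hxy : x = y * v := sub_eq_zero.1 h
            by_cases hy0 : y = 0
            · apply hz0
              simp [hxy, hy0]
            · apply hvK
              have : v = x / y := by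
                rw [hxy]; field_simp
              rw [this]
              exact K.div_mem hx hy
        have hN : x ^ 2 - y ^ 2 * v ^ 2 ∈ K :=
          K.sub_mem (K.pow_mem hx 2) (K.mul_mem (K.pow_mem hy 2) hv)
        refine ⟨x / (x ^ 2 - y ^ 2 * v ^ 2), K.div_mem hx hN,
          -y / (x ^ 2 - y ^ 2 * v ^ 2), K.div_mem (K.neg_mem hy) hN, ?_⟩
        rw [inv_eq_iff_eq_inv, ← one_div]
        rw [eq_div_iff]
        · rw [show x / (x ^ 2 - y ^ 2 * v ^ 2) + -y / (x ^ 2 - y ^ 2 * v ^ 2) * v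
            = (x - y * v) / (x ^ 2 - y ^ 2 * v ^ 2) by ring]
          rw [← mul_div_assoc, div_eq_one_iff_eq hn]
          ring
        · rw [show x / (x ^ 2 - y ^ 2 * v ^ 2) + -y / (x ^ 2 - y ^ 2 * v ^ 2) * v
            = (x - y * v) / (x ^ 2 - y ^ 2 * v ^ 2) by ring]
          apply div_ne_zero _ hn
          intro h
          apply hn
          rw [show x ^ 2 - y ^ 2 * v ^ 2 = (x + y * v) * (x - y * v) by ring, h, mul_zero]

theorem quad_desc {p : ℕ} [Fact p.Prime] (h2 : p ≠ 2) {L : Type*} [Field L] [CharP L p]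
    (K : Subfield L) (v : L) (hv : v ^ 2 ∈ K) (a b c : L) (ha : a ∈ K) (hb : b ∈ K) (hc : c ∈ K)
    (Y : L) (hY : ∃ x ∈ K, ∃ y ∈ K, Y = x + y * v) (h : c * Y ^ p = a * Y - b) :
    ∃ Y0 ∈ K, c * Y0 ^ p = a * Y0 - b := by
  obtain ⟨x, hx, y, hy, rfl⟩ := hY
  by_cases hvK : v ∈ K
  · exact ⟨_, K.add_mem hx (K.mul_mem hy hvK), h⟩
  · have hodd : Odd p := (Fact.out : p.Prime).odd_of_ne_two h2
    obtain ⟨m, hm⟩ := hodd
    have hvp : v ^ p = (v ^ 2) ^ m * v := by
      rw [hm, pow_succ, pow_mul]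
    rw [add_pow_char, mul_pow, hvp] at h
    have hP : c * x ^ p - a * x + b ∈ K :=
      K.add_mem (K.sub_mem (K.mul_mem hc (K.pow_mem hx p)) (K.mul_mem ha hx)) hb
    have hQ : c * y ^ p * (v ^ 2) ^ m - a * y ∈ K :=
      K.sub_mem (K.mul_mem (K.mul_mem hc (K.pow_mem hy p)) (K.pow_mem hv m)) (K.mul_mem ha hy)
    have hE : (c * x ^ p - a * x + b) + (c * y ^ p * (v ^ 2) ^ m - a * y) * v = 0 := by
      linear_combination h
    by_cases hQ0 : c * y ^ p * (v ^ 2) ^ m - a * y = 0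
    · refine ⟨x, hx, ?_⟩
      rw [hQ0] at hE
      linear_combination hE
    · exfalso
      apply hvK
      have : v = -(c * x ^ p - a * x + b) / (c * y ^ p * (v ^ 2) ^ m - a * y) := by
        rw [eq_div_iff hQ0]
        linear_combination hE
      rw [this]
      exact K.div_mem (K.neg_mem hP) hQ

end Pool.Agent.H68.OR
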