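import Pool.Agent.H68.OR.Mem
import Pool.Agent.H68.OR.Qd

/-!
# Row ORZAb (project OR, block Z): descent of a solution from above and from below

Dehomogenisation (`sol_iff`): put `u = u_j`, `Z = u^κ Y`.  Dividing `c Z^p = Z - G` by `u^(κ p)`:
`c Y^p = (u^(κ(p-1)))⁻¹ Y - G/u^(κ p)` (`u ≠ 0`, `κ p = κ (p-1) + κ`); both coefficients are in `EE j m`
(`uL_inv_mem`, `WtE`).
* `sol_above`: `K = EE 0 m`, `v = x_(m+1)`, `v² = 4 x_m/(1+x_m)² ∈ K` (`xL_rel`, `one_add_xL_ne`).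
  `EE 0 (m+1)` is generated by `x_0..x_m ∈ K` and `v`: `quad_closure`; then `quad_desc`.
* `sol_below`: here `G/u_1^(κp) ∈ K = EE 1 m`.  `Z = u_0^κ Y = u_1^κ Y'`, `Y' = Y (u_0/u_1)^κ`,
  `u_0/u_1 = 2/(1+x_0)` (`uL_succ`), `Y' ∈ EE 0 m`.  `v = (1-x_0)/(1+x_0)`:
  `v² = 1 - 4 x_0/(1+x_0)² = 1 - x_1² ∈ K` (`xL_rel`); `EE 0 m` is generated by `x_0` and `x_1..x_m ∈ K`;
  `x_0 = (1-v)/(1+v) = (1-v)²/(1-v²) = (1+v²)/x_1² - (2/x_1²) v` (`1 - v² = x_1² ≠ 0`): `quad_closure`, then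
  `quad_desc` with `a = (u_1^(κ(p-1)))⁻¹`.
-/

open PowerSeries

namespace Pool.Agent.H68.OR

open Pool.Agent.H85.OT Pool.Agent.H6.OR

variable {p : ℕ} [Fact p.Prime]

private lemma ORZAb_field {L : Type*} [Field L] (u A Y g : L) (hu : u ≠ 0) (κ q : ℕ) (hq : 1 ≤ q) :
    A * (u ^ κ * Y) ^ q = u ^ κ * Y - g ↔
      A * Y ^ q = (u ^ (κ * (q - 1)))⁻¹ * Y - g / u ^ (κ * q) := by
  have hκ : u ^ (κ * q) = u ^ (κ * (q - 1)) * u ^ κ := by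
    rw [← pow_add]
    congr 1
    calc κ * q = κ * ((q - 1) + 1) := by rw [Nat.sub_add_cancel hq]
      _ = κ * (q - 1) + κ := by ring
  have ha : u ^ κ ≠ 0 := pow_ne_zero _ hu
  have hb : u ^ (κ * (q - 1)) ≠ 0 := pow_ne_zero _ hu
  rw [mul_pow, ← pow_mul, hκ]
  generalize u ^ κ = a at *
  generalize u ^ (κ * (q - 1)) = b at *
  generalize Y ^ q = W at *
  constructor
  · intro h
    field_simp
    linear_combination h
  · intro h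
    rw [show A * (b * a * W) = b * a * (A * W) by ring, h]
    field_simp

theorem sol_iff (κ j : ℕ) (c : ZMod p) (G : (ZMod p)⟦X⟧) (Y : LL p) :
    io p (PowerSeries.C c) * (uL p j ^ κ * Y) ^ p = uL p j ^ κ * Y - io p G ↔
      io p (PowerSeries.C c) * Y ^ p =
        (uL p j ^ (κ * (p - 1)))⁻¹ * Y - io p G / uL p j ^ (κ * p) :=
  ORZAb_field _ _ _ _ (uL_ne j) κ p (Fact.out : p.Prime).one_le

theorem sol_above (h2 : p ≠ 2) (κ m : ℕ) (c : ZMod p) (G : (ZMod p)⟦X⟧)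
    (hG : WtE p (κ * p) 0 m G) (h : Sol p κ 0 (m + 1) c G) : Sol p κ 0 m c G := by
  obtain ⟨Y, hY, hE⟩ := h
  rw [sol_iff] at hE
  have hx : xL p m ∈ EE p 0 m := xL_mem (Nat.zero_le m) le_rfl
  have h1 : 1 + xL p m ≠ 0 := one_add_xL_ne h2 m
  have hv : xL p (m + 1) ^ 2 ∈ EE p 0 m := by
    have h3 := xL_rel h2 m
    have h4 : xL p (m + 1) ^ 2 = 4 * xL p m / (1 + xL p m) ^ 2 := by
      rw [eq_div_iff (pow_ne_zero 2 h1), ← h3]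
      ring
    rw [h4]
    have h5 : (4 : LL p) ∈ EE p 0 m := by
      have : ((4 : ℕ) : LL p) ∈ EE p 0 m := natCast_mem _ 4
      exact_mod_cast this
    exact div_mem (mul_mem h5 hx) (pow_mem (add_mem (one_mem _) hx) 2)
  obtain ⟨Y0, hY0, hE0⟩ := quad_desc h2 (EE p 0 m) (xL p (m + 1)) hv
    ((uL p 0 ^ (κ * (p - 1)))⁻¹) (io p G / uL p 0 ^ (κ * p)) (io p (PowerSeries.C c))
    (uL_inv_mem h2 κ (Nat.zero_le m)) hG (io_C_mem _ c) Y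
    (quad_closure (EE p 0 m) (xL p (m + 1)) hv {y | ∃ i, 0 ≤ i ∧ i ≤ m + 1 ∧ y = xL p i} (by
      rintro s ⟨i, hi0, hi, rfl⟩
      rcases Nat.lt_or_ge m i with h6 | h6
      · have h7 : i = m + 1 := by omega
        subst h7
        exact ⟨0, zero_mem _, 1, one_mem _, by ring⟩
      · exact ⟨xL p i, xL_mem hi0 h6, 0, zero_mem _, by ring⟩) Y hY) hE
  exact ⟨Y0, hY0, (sol_iff κ 0 c G Y0).2 hE0⟩

theorem sol_below (h2 : p ≠ 2) (κ m : ℕ) (hm : 1 ≤ m) (c : ZMod p) (G : (ZMod p)⟦X⟧)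
    (hG : WtE p (κ * p) 1 m G) (h : Sol p κ 0 m c G) : Sol p κ 1 m c G := by
  obtain ⟨Y, hY, hE⟩ := h
  have hu0 : uL p 0 ≠ 0 := uL_ne 0
  have hu1 : uL p 1 ≠ 0 := uL_ne 1
  have h1 : 1 + xL p 0 ≠ 0 := one_add_xL_ne h2 0
  have hx1 : xL p 1 ≠ 0 := xL_ne 1
  have hx1m : xL p 1 ∈ EE p 1 m := xL_mem le_rfl hm
  have hrel : (1 + xL p 0) ^ 2 * xL p 1 ^ 2 = 4 * xL p 0 := by
    have := xL_rel h2 0
    simpa using this
  obtain ⟨Y', hY'⟩ : ∃ Y' : LL p, Y' = Y * (uL p 0 / uL p 1) ^ κ := ⟨_, rfl⟩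
  have hYY : uL p 0 ^ κ * Y = uL p 1 ^ κ * Y' := by
    rw [hY', div_pow]
    field_simp
  have hY'm : Y' ∈ EE p 0 m := by
    have h3 := uL_div_mem (p := p) h2 (Nat.zero_le 1) hm
    have h4 := inv_mem h3
    rw [inv_div] at h4
    rw [hY']
    exact mul_mem hY (pow_mem h4 κ)
  rw [hYY, sol_iff] at hE
  obtain ⟨v, hvdef⟩ : ∃ v : LL p, v = (1 - xL p 0) / (1 + xL p 0) := ⟨_, rfl⟩
  have hv2 : v ^ 2 = 1 - xL p 1 ^ 2 := by
    rw [hvdef, div_pow, div_eq_iff (pow_ne_zero 2 h1)]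
    linear_combination hrel
  have hv : v ^ 2 ∈ EE p 1 m := by
    rw [hv2]
    exact sub_mem (one_mem _) (pow_mem hx1m 2)
  have h2m : (2 : LL p) ∈ EE p 1 m := by
    have : ((2 : ℕ) : LL p) ∈ EE p 1 m := natCast_mem _ 2
    exact_mod_cast this
  have hx0 : xL p 0 = (1 + v ^ 2) / xL p 1 ^ 2 + (-(2 / xL p 1 ^ 2)) * v := by
    have hx1' : xL p 1 ^ 2 ≠ 0 := pow_ne_zero 2 hx1
    have h3 : v * (1 + xL p 0) = 1 - xL p 0 := by
      rw [hvdef, div_mul_cancel₀ _ h1]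
    have h4 : xL p 1 ^ 2 = 1 - v ^ 2 := by
      rw [hv2]
      ring
    have h5 : xL p 0 * xL p 1 ^ 2 = 1 + v ^ 2 - 2 * v := by
      rw [h4]
      linear_combination (1 - v) * h3
    field_simp
    linear_combination h5
  obtain ⟨Y0, hY0, hE0⟩ := quad_desc h2 (EE p 1 m) v hv
    ((uL p 1 ^ (κ * (p - 1)))⁻¹) (io p G / uL p 1 ^ (κ * p)) (io p (PowerSeries.C c))
    (uL_inv_mem h2 κ hm) hG (io_C_mem _ c) Y'
    (quad_closure (EE p 1 m) v hv {y | ∃ i, 0 ≤ i ∧ i ≤ m ∧ y = xL p i} (by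
      rintro s ⟨i, _, hi, rfl⟩
      rcases Nat.eq_zero_or_pos i with h6 | h6
      · subst h6
        exact ⟨(1 + v ^ 2) / xL p 1 ^ 2, div_mem (add_mem (one_mem _) hv) (pow_mem hx1m 2),
          -(2 / xL p 1 ^ 2), neg_mem (div_mem h2m (pow_mem hx1m 2)), hx0⟩
      · exact ⟨xL p i, xL_mem h6 hi, 0, zero_mem _, by ring⟩) Y' hY'm) hE
  exact ⟨Y0, hY0, (sol_iff κ 1 c G Y0).2 hE0⟩

end Pool.Agent.H68.OR
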