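import Pool.Agent.H68.OR.Mem
import Pool.Agent.H68.OR.Ab

/-!
# Row ORZBs (project OR, block Z): solutions at level `0` are polynomial

* `EE00`: every element of `EE 0 0` (generated by `x_0 = io x`, `dd_zero`) is `io (A(x)) / io (B(x))` with
  polynomials `A, B` over `F_p`, `B ≠ 0` : `Subfield.closure_induction`; note `B ≠ 0` implies `io (B(x)) ≠ 0`:
  `ord_xx (two_ne h2)` and `io_inj`.  Dividing by the gcd one may assume `IsCoprime A B`
  (e.g. `EuclideanDomain.gcd`, `Polynomial` over a field; or `IsLocalization`/`exists_gcd..`: `A = g A'`, `B = g B'`,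
  `IsCoprime A' B'` from `EuclideanDomain.isCoprime_div_gcd_div_gcd`).
* `sol_base`: `sol_iff` with `G = U^(κp) η(x)`: `c Y^p = a Y - η(x)`, `a = (u_0^(κ(p-1)))⁻¹ = α(x)`,
  `α = ((hh p).comp (1 - X²))^κ` (`hasseL 0`), of degree `≤ κ (p-1)` (`hh_natDegree`, `2 mm p = p-1`).
  With `Y = A(x)/B(x)`: multiply by `B^p`: `c A^p = α A B^(p-1) - η B^p` as polynomials (injectivity of
  `P ↦ io (P(x))`), so `B ∣ C c * A^p`, `B` and `A^p` coprime: `B` is a unit, `B = C b`; `P = C b⁻¹ * A`, `Y = io (P(x))`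
  and `c P^p = α P - η`.
  Degree: if `ρ = deg P > κ` then `deg (c P^p) = p ρ`, but `deg (α P) ≤ κ (p-1) + ρ < p ρ` and
  `deg η ≤ κ p < ρ p`: contradiction.  The equation in `F_p[[q]]`: multiply `c P(x)^p = α(x) P(x) - η(x)` by `U^(κp)`
  (`U^(κ(p-1)) α(x) = 1`, `hasse`), or go back through `sol_iff` and `io_inj`.
-/

open PowerSeries

namespace Pool.Agent.H68.OR

open Pool.Agent.H85.OT Pool.Agent.H6.OR

variable {p : ℕ} [Fact p.Prime]

/-- `P ↦ P(x)` into the fraction field -/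
noncomputable def BsF (p : ℕ) [Fact p.Prime] : Polynomial (ZMod p) →+* LL p :=
  (io p).comp (Polynomial.aeval (xx (ZMod p))).toRingHom

theorem BsF_apply (P : Polynomial (ZMod p)) :
    BsF p P = io p (Polynomial.aeval (xx (ZMod p)) P) := rfl

theorem BsF_inj (h2 : p ≠ 2) : Function.Injective (BsF p) := by
  rw [injective_iff_map_eq_zero]
  intro P hP
  rw [BsF_apply] at hP
  have h1 : Polynomial.aeval (xx (ZMod p)) P = 0 := io_inj p (by rw [hP, map_zero])
  by_contra hne
  obtain ⟨l, _, hl⟩ := ord_xx (two_ne h2) P hne _ le_rfl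
  exact hl (by rw [h1, map_zero])

theorem EE00 (h2 : p ≠ 2) (Y : LL p) (hY : Y ∈ EE p 0 0) :
    ∃ A B : Polynomial (ZMod p), B ≠ 0 ∧ IsCoprime A B ∧
      io p (Polynomial.aeval (xx (ZMod p)) B) ≠ 0 ∧
      Y = io p (Polynomial.aeval (xx (ZMod p)) A) / io p (Polynomial.aeval (xx (ZMod p)) B) := by
  have hnz : nonZeroDivisors (Polynomial (ZMod p)) ≤
      (nonZeroDivisors (LL p)).comap (BsF p) := by
    intro P hP
    rw [Submonoid.mem_comap, mem_nonZeroDivisors_iff_ne_zero]
    intro h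
    exact nonZeroDivisors.ne_zero hP ((injective_iff_map_eq_zero _).1 (BsF_inj h2) P h)
  have hle : EE p 0 0 ≤ (RatFunc.liftRingHom (BsF p) hnz).fieldRange := by
    unfold EE
    rw [Subfield.closure_le]
    rintro y ⟨i, _, hi, rfl⟩
    obtain rfl : i = 0 := by omega
    refine ⟨RatFunc.X, ?_⟩
    rw [RatFunc.liftRingHom_apply, RatFunc.num_X, RatFunc.denom_X, map_one, div_one, BsF_apply,
      Polynomial.aeval_X]
    unfold xL
    rw [dd_zero]
  obtain ⟨q, hq⟩ := hle hY
  refine ⟨q.num, q.denom, q.denom_ne_zero, q.isCoprime_num_denom, ?_, ?_⟩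
  · intro h
    exact q.denom_ne_zero ((injective_iff_map_eq_zero _).1 (BsF_inj h2) q.denom h)
  · rw [← hq, RatFunc.liftRingHom_apply]
    rfl

theorem sol_base (h2 : p ≠ 2) (κ : ℕ) (c : ZMod p) (hc : c ≠ 0) (η : Polynomial (ZMod p))
    (hη : η.natDegree ≤ κ * p)
    (h : Sol p κ 0 0 c (U (ZMod p) ^ (κ * p) * Polynomial.aeval (xx (ZMod p)) η)) :
    ∃ P : Polynomial (ZMod p), P.natDegree ≤ κ ∧
      PowerSeries.C c * (U (ZMod p) ^ κ * Polynomial.aeval (xx (ZMod p)) P) ^ p =
        U (ZMod p) ^ κ * Polynomial.aeval (xx (ZMod p)) P -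
          U (ZMod p) ^ (κ * p) * Polynomial.aeval (xx (ZMod p)) η := by
  have hp := (Fact.out : p.Prime)
  have hp2 := hp.two_le
  have hm := two_mm hp h2
  obtain ⟨α0, hα0⟩ : ∃ α0 : Polynomial (ZMod p), α0 = (hh p).comp (1 - Polynomial.X ^ 2) :=
    ⟨_, rfl⟩
  have hα0d : α0.natDegree ≤ p - 1 := by
    rw [hα0]
    refine Polynomial.natDegree_comp_le.trans ?_
    have h1 : (1 - Polynomial.X ^ 2 : Polynomial (ZMod p)).natDegree ≤ 2 := by compute_degree
    have h3 : (hh p).natDegree ≤ mm p := by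
      unfold hh
      refine Polynomial.natDegree_sum_le_of_forall_le _ _ fun i hi => ?_
      refine (Polynomial.natDegree_C_mul_X_pow_le _ _).trans ?_
      exact Nat.lt_succ_iff.1 (Finset.mem_range.1 hi)
    calc (hh p).natDegree * (1 - Polynomial.X ^ 2 : Polynomial (ZMod p)).natDegree ≤ mm p * 2 :=
          Nat.mul_le_mul h3 h1
      _ = p - 1 := by omega
  have hα0e : U (ZMod p) ^ (p - 1) * Polynomial.aeval (xx (ZMod p)) α0 = 1 := by
    have h1 := hasse (p := p) h2
    have e : 2 * mm p = p - 1 := by omega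
    rw [e] at h1
    rw [hα0, Polynomial.aeval_comp, map_sub, map_one, map_pow, Polynomial.aeval_X]
    exact h1
  have hαe : U (ZMod p) ^ (κ * (p - 1)) * Polynomial.aeval (xx (ZMod p)) (α0 ^ κ) = 1 := by
    rw [map_pow, mul_comm κ, pow_mul, ← mul_pow, hα0e, one_pow]
  have hU0 : uL p 0 = io p (U (ZMod p)) := by
    unfold uL
    rw [dd_zero]
  have hu := uL_ne (p := p) 0
  have hinv : (uL p 0 ^ (κ * (p - 1)))⁻¹ = BsF p (α0 ^ κ) := by
    apply inv_eq_of_mul_eq_one_right
    rw [BsF_apply, hU0, ← map_pow, ← map_mul, hαe, map_one]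
  obtain ⟨Y, hY, hYe⟩ := h
  obtain ⟨A, B, hB0, hAB, hBn, hYAB⟩ := EE00 h2 Y hY
  rw [sol_iff, hinv] at hYe
  have hG : io p (U (ZMod p) ^ (κ * p) * Polynomial.aeval (xx (ZMod p)) η) / uL p 0 ^ (κ * p) =
      BsF p η := by
    rw [map_mul, map_pow, ← hU0, mul_div_cancel_left₀ _ (pow_ne_zero _ hu)]
    rfl
  have hCc : io p (PowerSeries.C c) = BsF p (Polynomial.C c) := by
    rw [BsF_apply, Polynomial.aeval_C]
    rfl
  have hYAB' : Y = BsF p A / BsF p B := hYAB
  have hBn' : BsF p B ≠ 0 := hBn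
  rw [hG, hCc, hYAB'] at hYe
  -- polynomial identity
  have hpoly : Polynomial.C c * A ^ p = α0 ^ κ * A * B ^ (p - 1) - η * B ^ p := by
    apply BsF_inj h2
    have key : ∀ (c' a b α η' : LL p), b ≠ 0 → c' * (a / b) ^ p = α * (a / b) - η' →
        c' * a ^ p = α * a * b ^ (p - 1) - η' * b ^ p := by
      intro c' a b α η' hb h3
      have e : b ^ p = b ^ (p - 1) * b := by
        rw [← pow_succ]
        congr 1
        omega
      have h4 : c' * a ^ p = (c' * (a / b) ^ p) * b ^ p := by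
        rw [div_pow, mul_assoc, div_mul_cancel₀ _ (pow_ne_zero _ hb)]
      have h5 : α * (a / b) * b ^ p = α * a * b ^ (p - 1) := by
        rw [e]
        field_simp
      rw [h4, h3, sub_mul, h5]
    have h6 := key _ _ _ _ _ hBn' hYe
    simpa only [map_mul, map_sub, map_pow] using h6
  have hunit : IsUnit B := by
    have h4 : B ∣ Polynomial.C c * A ^ p := by
      rw [hpoly]
      refine dvd_sub (Dvd.dvd.mul_left (dvd_pow_self _ (by omega)) _)
        (Dvd.dvd.mul_left (dvd_pow_self _ (by omega)) _)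
    have h5 : B ∣ A ^ p := (Polynomial.dvd_C_mul hc).1 h4
    exact (hAB.symm.pow_right (n := p)).isUnit_of_dvd' dvd_rfl h5
  obtain ⟨b, hb, hbB⟩ := Polynomial.isUnit_iff.1 hunit
  have hb0 : b ≠ 0 := hb.ne_zero
  obtain ⟨P, hP⟩ : ∃ P, P = Polynomial.C b⁻¹ * A := ⟨_, rfl⟩
  have hAP : A = Polynomial.C b * P := by
    rw [hP, ← mul_assoc, ← Polynomial.C_mul, mul_inv_cancel₀ hb0, Polynomial.C_1, one_mul]
  have hPpoly : Polynomial.C c * P ^ p = α0 ^ κ * P - η := by
    rw [← hbB, hAP] at hpoly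
    have hbp : (Polynomial.C b : Polynomial (ZMod p)) ^ p ≠ 0 :=
      pow_ne_zero _ (Polynomial.C_ne_zero.2 hb0)
    apply mul_left_cancel₀ hbp
    have e : (Polynomial.C b : Polynomial (ZMod p)) ^ p =
        Polynomial.C b ^ (p - 1) * Polynomial.C b := by
      rw [← pow_succ]
      congr 1
      omega
    calc Polynomial.C b ^ p * (Polynomial.C c * P ^ p) =
        Polynomial.C c * (Polynomial.C b * P) ^ p := by rw [mul_pow]; ring
      _ = α0 ^ κ * (Polynomial.C b * P) * Polynomial.C b ^ (p - 1) - η * Polynomial.C b ^ p :=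
          hpoly
      _ = Polynomial.C b ^ p * (α0 ^ κ * P - η) := by rw [e]; ring
  have hdeg : P.natDegree ≤ κ := by
    by_contra hcon
    rw [not_le] at hcon
    have h6 : (Polynomial.C c * P ^ p).natDegree = p * P.natDegree := by
      rw [Polynomial.natDegree_C_mul hc, Polynomial.natDegree_pow]
    have h7 : (α0 ^ κ * P - η).natDegree ≤ max (κ * (p - 1) + P.natDegree) (κ * p) := by
      refine (Polynomial.natDegree_sub_le _ _).trans (max_le_max ?_ hη)
      refine Polynomial.natDegree_mul_le.trans ?_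
      have h8 : (α0 ^ κ).natDegree ≤ κ * (p - 1) :=
        Polynomial.natDegree_pow_le.trans (Nat.mul_le_mul_left κ hα0d)
      omega
    rw [← hPpoly, h6] at h7
    have h9 : κ * (p - 1) + P.natDegree < p * P.natDegree := by
      have e3 : p * P.natDegree = (p - 1) * P.natDegree + P.natDegree := by
        rw [← Nat.succ_mul]
        congr 1
        omega
      have e4 : κ * (p - 1) < (p - 1) * P.natDegree := by
        rw [mul_comm κ]
        exact Nat.mul_lt_mul_of_pos_left hcon (by omega)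
      omega
    have h10 : κ * p < p * P.natDegree := by
      rw [mul_comm κ]
      exact Nat.mul_lt_mul_of_pos_left hcon hp.pos
    rcases le_max_iff.1 h7 with h11 | h11
    · omega
    · omega
  refine ⟨P, hdeg, ?_⟩
  have h12 := congrArg (Polynomial.aeval (xx (ZMod p))) hPpoly
  rw [map_mul, map_pow, map_sub, map_mul, Polynomial.aeval_C] at h12
  have h13 : (algebraMap (ZMod p) (ZMod p)⟦X⟧) c = PowerSeries.C c := rfl
  rw [h13] at h12
  have e : κ * p = κ * (p - 1) + κ := by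
    rw [← Nat.mul_succ]
    congr 1
    omega
  have h14 : U (ZMod p) ^ (κ * p) = U (ZMod p) ^ (κ * (p - 1)) * U (ZMod p) ^ κ := by
    rw [e, pow_add]
  rw [mul_pow, ← pow_mul]
  calc PowerSeries.C c * (U (ZMod p) ^ (κ * p) * Polynomial.aeval (xx (ZMod p)) P ^ p) =
      U (ZMod p) ^ (κ * p) * (PowerSeries.C c * Polynomial.aeval (xx (ZMod p)) P ^ p) := by ring
    _ = U (ZMod p) ^ (κ * p) * (Polynomial.aeval (xx (ZMod p)) (α0 ^ κ) *
          Polynomial.aeval (xx (ZMod p)) P - Polynomial.aeval (xx (ZMod p)) η) := by rw [h12]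
    _ = (U (ZMod p) ^ (κ * (p - 1)) * Polynomial.aeval (xx (ZMod p)) (α0 ^ κ)) *
          (U (ZMod p) ^ κ * Polynomial.aeval (xx (ZMod p)) P) -
          U (ZMod p) ^ (κ * p) * Polynomial.aeval (xx (ZMod p)) η := by rw [h14]; ring
    _ = _ := by rw [hαe, one_mul]

end Pool.Agent.H68.OR
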