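import Pool.Agent.H68.OR.Defs

/-!
# Row ORZBt (project OR, block Z): the derivative of a polynomial solution

`G0 = U^κ P(x)`, `deg P ≤ κ`, `C c * G0^p = G0 - G`, `D G = U^(κ+2) φ(x)`.  `D = Dq` kills `p`-th powers
(`Derivation.leibniz_pow`, `(p : F_p[[q]]) = 0`) and constants, so `D G0 = D G`.
`D G0 = κ ε U^κ P(x) + U^κ P'(x) D x` (`Dq_U`, `Derivation.leibniz`, `Derivation.leibniz_pow`, `Derivation.map_aeval`);
`2 D x = -x (1-x²) U²` (`Dq_xx`), `ε = U^(p+1) B(lam)` (`ee_eq`, `2 mm p + 2 = p + 1`), `U^(p-1) h(lam) = 1` (`hasse`),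
`lam = 1 - x²`.  Multiply `D G0 = D G` by `2 h(lam)` and cancel `U^(κ+2)` (`U_ne_zero`; in the first term
`U^(p+1) h(lam) = U²`):
`2 κ B(lam) P(x) = h(lam) (2 φ(x) + x (1-x²) P'(x))`, an equality of values at `x` of polynomials, hence of polynomials
(`ord_xx (two_ne h2)` shows `aeval x Q = 0 → Q = 0`): with `h' = (hh p).comp (1 - X²)`, `B' = (Bh p).comp (1 - X²)`
`2 κ B' P = h' (2 φ + X (1-X²) P')`.  `h', B'` are coprime (`hh_coprime h2`, `IsCoprime.map` with
`Polynomial.compRingHom (1 - X²)`), `2 κ ≠ 0` in `F_p` (`0 < κ < p`), so `h' ∣ P`.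
`deg h' = 2 mm p = p - 1 > κ ≥ deg P` (`hh_natDegree`, `Polynomial.natDegree_comp`, `natDegree (1 - X²) = 2`), so
`P = 0` (`Polynomial.eq_zero_of_dvd_of_natDegree_lt`).
-/

open PowerSeries

namespace Pool.Agent.H68.OR

open Pool.Agent.H85.OT Pool.Agent.H6.OR

variable {p : ℕ} [Fact p.Prime]

/-- values at `x` determine the polynomial -/
theorem Bt_inj (h2 : p ≠ 2) (Q : Polynomial (ZMod p)) (h : Polynomial.aeval (xx (ZMod p)) Q = 0) :
    Q = 0 := by
  by_contra hQ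
  obtain ⟨l, _, hl⟩ := ord_xx (two_ne h2) Q hQ Q.natDegree le_rfl
  exact hl (by rw [h, map_zero])

theorem Bt_lam : Polynomial.aeval (xx (ZMod p)) (1 - Polynomial.X ^ 2 : Polynomial (ZMod p)) =
    lam (ZMod p) := by
  rw [map_sub, map_one, map_pow, Polynomial.aeval_X]
  rfl

theorem Bt_deg2 : (1 - Polynomial.X ^ 2 : Polynomial (ZMod p)).natDegree = 2 := by
  have h : (1 - Polynomial.X ^ 2 : Polynomial (ZMod p)) = -(Polynomial.X ^ 2 - Polynomial.C 1) := by
    rw [Polynomial.C_1]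
    ring
  rw [h, Polynomial.natDegree_neg, Polynomial.natDegree_X_pow_sub_C]

theorem base_D (h2 : p ≠ 2) (κ : ℕ) (hκ : 1 ≤ κ) (hκp : κ + 1 < p) (c : ZMod p)
    (P φ : Polynomial (ZMod p)) (hP : P.natDegree ≤ κ) (G : (ZMod p)⟦X⟧)
    (hD : Dq (ZMod p) G = U (ZMod p) ^ (κ + 2) * Polynomial.aeval (xx (ZMod p)) φ)
    (h : PowerSeries.C c * (U (ZMod p) ^ κ * Polynomial.aeval (xx (ZMod p)) P) ^ p =
        U (ZMod p) ^ κ * Polynomial.aeval (xx (ZMod p)) P - G) : P = 0 := by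
  have hpr : p.Prime := Fact.out
  have hmm := two_mm hpr h2
  have hp0 : ((p : ℕ) : (ZMod p)⟦X⟧) = 0 := by
    rw [← map_natCast (PowerSeries.C (R := ZMod p)), CharP.cast_eq_zero, map_zero]
  set u := U (ZMod p) with hu
  set x := xx (ZMod p) with hx
  set G0 := u ^ κ * Polynomial.aeval x P with hG0
  -- `D G0 = D G`
  have hDG : Dq (ZMod p) G0 = Dq (ZMod p) G := by
    have h1 := congrArg (Dq (ZMod p)) h
    rw [map_sub] at h1
    have h3 : Dq (ZMod p) (PowerSeries.C c * G0 ^ p) = 0 := by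
      rw [← smul_eq_C_mul, Derivation.map_smul, Derivation.leibniz_pow, nsmul_eq_mul, hp0,
        zero_mul, smul_zero]
    rw [h3] at h1
    exact (sub_eq_zero.1 h1.symm)
  have hH : u ^ (2 * mm p) * Polynomial.aeval (lam (ZMod p)) (hh p) = 1 := hasse h2
  have hE : ee (ZMod p) = u ^ (2 * mm p + 2) * Polynomial.aeval (lam (ZMod p)) (Bh p) := ee_eq h2
  have hX : 2 * Dq (ZMod p) x = -(x * (1 - x ^ 2) * u ^ 2) := Dq_xx (ZMod p) (two_ne h2)
  have hU : Dq (ZMod p) u = ee (ZMod p) * u := Dq_U (ZMod p)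
  set hl := Polynomial.aeval (lam (ZMod p)) (hh p) with hhl
  set bl := Polynomial.aeval (lam (ZMod p)) (Bh p) with hbl
  set P' := Polynomial.aeval x (Polynomial.derivative P) with hP'
  have hUk : Dq (ZMod p) (u ^ κ) = (κ : (ZMod p)⟦X⟧) * (ee (ZMod p) * u ^ κ) := by
    rw [Derivation.leibniz_pow, hU, nsmul_eq_mul, smul_eq_mul]
    obtain ⟨k, rfl⟩ : ∃ k, κ = k + 1 := ⟨κ - 1, by omega⟩
    rw [Nat.add_sub_cancel]
    ring
  have hD1 : Dq (ZMod p) G0 = u ^ κ * (P' * Dq (ZMod p) x) +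
      Polynomial.aeval x P * ((κ : (ZMod p)⟦X⟧) * (ee (ZMod p) * u ^ κ)) := by
    rw [hG0, Derivation.leibniz, smul_eq_mul, smul_eq_mul, hUk, Derivation.map_aeval, smul_eq_mul]
  -- multiply by `2 h(lam)` and cancel `u^(κ+2)`
  have hkey : u ^ (κ + 2) * (2 * (κ : (ZMod p)⟦X⟧) * bl * Polynomial.aeval x P -
      hl * (2 * Polynomial.aeval x φ + x * (1 - x ^ 2) * P')) = 0 := by
    have e1 : 2 * hl * Dq (ZMod p) G0 = 2 * hl * (u ^ (κ + 2) * Polynomial.aeval x φ) := by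
      rw [hDG, hD]
    rw [hD1, hE] at e1
    have e2 : u ^ (2 * mm p + 2) = u ^ (2 * mm p) * u ^ 2 := pow_add _ _ _
    have e3 : u ^ (κ + 2) = u ^ κ * u ^ 2 := pow_add _ _ _
    rw [e2, e3] at e1
    rw [e3]
    linear_combination e1 - (hl * u ^ κ * P') * hX -
      (2 * Polynomial.aeval x P * (κ : (ZMod p)⟦X⟧) * u ^ 2 * bl * u ^ κ) * hH
  have hu0 : u ^ (κ + 2) ≠ 0 := pow_ne_zero _ (U_ne_zero (ZMod p))
  have hval := (mul_eq_zero.1 hkey).resolve_left hu0
  -- the polynomial identity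
  set h' : Polynomial (ZMod p) := (hh p).comp (1 - Polynomial.X ^ 2) with hh'
  set B' : Polynomial (ZMod p) := (Bh p).comp (1 - Polynomial.X ^ 2) with hB'
  have ev1 : Polynomial.aeval x h' = hl := by
    rw [hh', Polynomial.aeval_comp, Bt_lam]
  have ev2 : Polynomial.aeval x B' = bl := by
    rw [hB', Polynomial.aeval_comp, Bt_lam]
  have hpoly : 2 * (κ : Polynomial (ZMod p)) * B' * P -
      h' * (2 * φ + Polynomial.X * (1 - Polynomial.X ^ 2) * Polynomial.derivative P) = 0 := by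
    apply Bt_inj h2
    simp only [map_mul, map_sub, map_add, map_one, Polynomial.aeval_X, map_ofNat, map_natCast,
      map_pow]
    rw [← hx, ev1, ev2]
    exact hval
  have hcop : IsCoprime h' B' := by
    have h3 := (hh_coprime (p := p) h2).map
      (Polynomial.compRingHom (1 - Polynomial.X ^ 2 : Polynomial (ZMod p)))
    rw [Polynomial.coe_compRingHom_apply, Polynomial.coe_compRingHom_apply] at h3
    exact h3
  have hdvd : h' ∣ Polynomial.C (2 * (κ : ZMod p)) * P := by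
    have h3 : h' ∣ B' * (Polynomial.C (2 * (κ : ZMod p)) * P) := by
      refine ⟨2 * φ + Polynomial.X * (1 - Polynomial.X ^ 2) * Polynomial.derivative P, ?_⟩
      rw [Polynomial.C_mul, Polynomial.C_ofNat, Polynomial.C_eq_natCast]
      linear_combination hpoly
    exact hcop.dvd_of_dvd_mul_left h3
  have hκ0 : (2 * (κ : ZMod p)) ≠ 0 := by
    refine mul_ne_zero (two_ne h2) fun h3 => ?_
    have h4 := (ZMod.natCast_eq_zero_iff _ _).1 h3
    exact Nat.not_dvd_of_pos_of_lt (by omega) (by omega) h4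
  have hdP : h' ∣ P := (Polynomial.dvd_C_mul hκ0).1 hdvd
  refine Polynomial.eq_zero_of_dvd_of_natDegree_lt hdP ?_
  rw [hh', Polynomial.natDegree_comp, hh_natDegree h2, Bt_deg2]
  omega

end Pool.Agent.H68.OR
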