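import Pool.Agent.H68.OR.Lv

/-!
# Row ORZPl (project OR, block Z): pull back along `q ↦ q²`

`dbL : LL p →+* LL p` is the extension of the injective ring homomorphism `dbl` (`IsFractionRing.map`);
`dbL (io G) = io (dbl G)` (`IsFractionRing.map`/`IsLocalization.map_eq`).  `dbL x_i = x_(i+1)`, `dbL u_0 = u_1`
(`dd_succ'`).  `Subfield.map dbL (EE 0 m) = EE 1 (m+1)`: `RingHom.map_field_closure`, and the image of the
generating set is the generating set (`i ↦ i + 1`).
So a solution `Y ∈ EE 1 (m+1)` is `dbL Y'`, `Y' ∈ EE 0 m`, and the equation is the image of the equation for `Y'`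
(`dd_zero`: `u_0 = io U`); `dbL` is injective (field homomorphism).
-/

open PowerSeries

namespace Pool.Agent.H68.OR

open Pool.Agent.H85.OT Pool.Agent.H6.OR

variable {p : ℕ} [Fact p.Prime]

private theorem dbl_inj' {R : Type*} [CommRing R] : Function.Injective (dbl R) := by
  intro G H h
  apply dd_inj 1
  rw [dd_succ, dd_succ, dd_zero, dd_zero, h]

/-- The ring homomorphism of the fraction field that extends `q ↦ q²`. -/
private noncomputable def dbL (p : ℕ) [Fact p.Prime] : LL p →+* LL p :=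
  IsFractionRing.lift (A := (ZMod p)⟦X⟧) (g := (io p).comp (dbl (ZMod p)).toRingHom)
    ((io_inj p).comp dbl_inj')

private theorem dbL_io (G : (ZMod p)⟦X⟧) : dbL p (io p G) = io p (dbl (ZMod p) G) :=
  IsFractionRing.lift_algebraMap (A := (ZMod p)⟦X⟧)
    (g := (io p).comp (dbl (ZMod p)).toRingHom) ((io_inj p).comp dbl_inj') G

private theorem dbL_xL (i : ℕ) : dbL p (xL p i) = xL p (i + 1) := by
  rw [xL, xL, dbL_io, dd_succ']

private theorem dbL_uL (i : ℕ) : dbL p (uL p i) = uL p (i + 1) := by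
  rw [uL, uL, dbL_io, dd_succ']

private theorem map_EE (m : ℕ) : (EE p 0 m).map (dbL p) = EE p 1 (m + 1) := by
  rw [EE, EE, RingHom.map_field_closure]
  congr 1
  ext y
  constructor
  · rintro ⟨x, ⟨i, -, hi, rfl⟩, rfl⟩
    exact ⟨i + 1, by omega, by omega, dbL_xL i⟩
  · rintro ⟨i, hi1, hi2, rfl⟩
    refine ⟨xL p (i - 1), ⟨i - 1, by omega, by omega, rfl⟩, ?_⟩
    rw [dbL_xL]
    congr 1
    omega

theorem sol_pull (κ m : ℕ) (c : ZMod p) (G : (ZMod p)⟦X⟧)
    (h : Sol p κ 1 (m + 1) c (dbl (ZMod p) G)) : Sol p κ 0 m c G := by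
  obtain ⟨Y, hY, he⟩ := h
  rw [← map_EE, Subfield.mem_map] at hY
  obtain ⟨Y', hY', rfl⟩ := hY
  refine ⟨Y', hY', ?_⟩
  apply (dbL p).injective
  rw [map_mul, map_pow, map_mul, map_pow, map_sub, map_mul, map_pow, dbL_uL, dbL_io, dbL_io]
  have h1 : dbl (ZMod p) (PowerSeries.C c) = PowerSeries.C c := (dbl (ZMod p)).commutes c
  rw [h1]
  exact he

end Pool.Agent.H68.OR
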