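import Pool.Agent.H68.OR.Lv
import Pool.Agent.H6.OR.ADefs

/-!
# Row ORZOp (project OR, block Z): the odd part

`sg p` is `q ↦ -q` (`PowerSeries.rescale (-1)`, `PowerSeries.coeff_rescale`: `coeff n (sg G) = (-1)^n coeff n G`),
`od G = (G - sg G)/2`.
* `coeff_od`: `(1 - (-1)^n)/2` is `1` for odd `n`, `0` for even `n` (`two_ne h2`).
* `sg_U`: `U = map (th3²)`, `V = map (th4²)`, `coeff n th4 = (-1)^n coeff n th3`; so `sg (map th3) = map th4`,
  `sg` is a ring homomorphism.  `sg_V`: apply `sg` (`sg (sg G) = G`).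
* `sg_dd`: `coeff n (dd i G) = 0` for odd `n`, `i ≥ 1` (`dd_Dq`), `(-1)^n = 1` for even `n`.
* `od_dd`, `od_C_mul`, `od_add`, `od_sum`: from the definition / coefficients.
* `Dq_od`: coefficients (`coeff_Dq`).
* `od_form`: `F = U^(2N) P(1-x²)`, `deg P ≤ N`; `sg x = x⁻¹` i.e. `x * sg x = 1` (from `xx_mul_U`: `x U = V`,
  apply `sg`: `sg x * V = U`).  `sg F = V^(2N) P(1 - (sg x)²) = U^(2N) x^(2N) ∑ P_i (1 - (sg x)²)^i
  = U^(2N) ∑_(i ≤ N) P_i x^(2N-2i) (x² - 1)^i`  (`x^(2i) (1 - (sg x)²)^i = (x²-1)^i`), the value at `x` of a polynomial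
  of degree `≤ 2N`; `P(1-x²)` also is (`P.comp (1 - X^2)`).
-/

open PowerSeries

namespace Pool.Agent.H68.OR

open Pool.Agent.H85.OT Pool.Agent.H6.OR

variable {p : ℕ} [Fact p.Prime]

theorem coeff_sg (G : (ZMod p)⟦X⟧) (n : ℕ) :
    PowerSeries.coeff n (sg p G) = (-1) ^ n * PowerSeries.coeff n G := by
  unfold sg
  rw [PowerSeries.coeff_rescale]

theorem coeff_od (h2 : p ≠ 2) (G : (ZMod p)⟦X⟧) (n : ℕ) :
    PowerSeries.coeff n (od p G) = if Odd n then PowerSeries.coeff n G else 0 := by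
  unfold od
  rw [PowerSeries.coeff_C_mul, map_sub, coeff_sg]
  split_ifs with h
  · rw [h.neg_one_pow]
    have h3 : (2 : ZMod p) ≠ 0 := two_ne h2
    field_simp
    ring
  · rw [Nat.not_odd_iff_even] at h
    rw [h.neg_one_pow]
    ring

theorem sg_sg (G : (ZMod p)⟦X⟧) : sg p (sg p G) = G := by
  ext n
  rw [coeff_sg, coeff_sg, ← mul_assoc, ← pow_add, Even.neg_one_pow ⟨n, rfl⟩, one_mul]

theorem sg_U : sg p (U (ZMod p)) = V (ZMod p) := by
  have h1 : PowerSeries.rescale (-1 : ℤ) th3 = th4 := by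
    ext n
    rw [PowerSeries.coeff_rescale, th4, PowerSeries.coeff_mk]
  have h2 : ∀ G : ℤ⟦X⟧, sg p (PowerSeries.map (Int.castRingHom (ZMod p)) G) =
      PowerSeries.map (Int.castRingHom (ZMod p)) (PowerSeries.rescale (-1 : ℤ) G) := by
    intro G
    ext n
    rw [coeff_sg, PowerSeries.coeff_map, PowerSeries.coeff_map, PowerSeries.coeff_rescale, map_mul,
      map_pow, map_neg, map_one]
  unfold U V
  rw [h2, map_pow, h1]

theorem sg_V : sg p (V (ZMod p)) = U (ZMod p) := by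
  rw [← sg_U, sg_sg]

theorem U_ne_zero' : U (ZMod p) ≠ 0 := by
  intro h
  have h1 := constCoeff_U (ZMod p)
  rw [h, map_zero] at h1
  exact zero_ne_one h1

theorem sg_xx : xx (ZMod p) * sg p (xx (ZMod p)) = 1 := by
  have h1 := xx_mul_U (ZMod p)
  have h2 := congrArg (sg p) h1
  rw [map_mul, sg_U, sg_V] at h2
  refine mul_right_cancel₀ (U_ne_zero' (p := p)) ?_
  calc xx (ZMod p) * sg p (xx (ZMod p)) * U (ZMod p) =
      sg p (xx (ZMod p)) * (xx (ZMod p) * U (ZMod p)) := by ring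
    _ = 1 * U (ZMod p) := by rw [h1, h2, one_mul]

theorem sg_dd (i : ℕ) (hi : 1 ≤ i) (G : (ZMod p)⟦X⟧) :
    sg p (dd (ZMod p) i G) = dd (ZMod p) i G := by
  ext n
  rw [coeff_sg]
  rcases Nat.even_or_odd n with h | h
  · rw [h.neg_one_pow, one_mul]
  · rw [dd_Dq i hi G n h, mul_zero]

theorem od_dd (i : ℕ) (hi : 1 ≤ i) (G : (ZMod p)⟦X⟧) : od p (dd (ZMod p) i G) = 0 := by
  unfold od
  rw [sg_dd i hi, sub_self, mul_zero]

theorem od_C_mul (a : ZMod p) (G : (ZMod p)⟦X⟧) :
    od p (PowerSeries.C a * G) = PowerSeries.C a * od p G := by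
  ext n
  unfold od
  rw [PowerSeries.coeff_C_mul, PowerSeries.coeff_C_mul, PowerSeries.coeff_C_mul, map_sub, map_sub,
    coeff_sg, coeff_sg, PowerSeries.coeff_C_mul]
  ring

theorem od_sum {ι : Type*} (s : Finset ι) (G : ι → (ZMod p)⟦X⟧) :
    od p (∑ i ∈ s, G i) = ∑ i ∈ s, od p (G i) := by
  unfold od
  rw [map_sum, ← Finset.sum_sub_distrib, Finset.mul_sum]

theorem Dq_od (h2 : p ≠ 2) (G : (ZMod p)⟦X⟧) : Dq (ZMod p) (od p G) = od p (Dq (ZMod p) G) := by
  ext n
  rw [coeff_Dq, coeff_od h2, coeff_od h2, coeff_Dq]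
  split_ifs
  · rfl
  · rw [mul_zero]

theorem od_form (h2 : p ≠ 2) (N : ℕ) (F : (ZMod p)⟦X⟧) (hF : Mf p N F) :
    ∃ η : Polynomial (ZMod p), η.natDegree ≤ 2 * N ∧
      od p F = U (ZMod p) ^ (2 * N) * Polynomial.aeval (xx (ZMod p)) η := by
  obtain ⟨R, hR, hR2⟩ := Mf_x h2 N F hF
  obtain ⟨P, hP, rfl⟩ := hF
  have h2' := h2
  have hQ : ∃ Q : Polynomial (ZMod p), Q.natDegree ≤ 2 * N ∧
      sg p (U (ZMod p) ^ (2 * N) * Polynomial.aeval (lam (ZMod p)) P) =
        U (ZMod p) ^ (2 * N) * Polynomial.aeval (xx (ZMod p)) Q := by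
    refine ⟨∑ i ∈ Finset.range (N + 1),
      Polynomial.C (P.coeff i) * (Polynomial.X ^ (2 * (N - i)) * (Polynomial.X ^ 2 - 1) ^ i), ?_, ?_⟩
    · refine Polynomial.natDegree_sum_le_of_forall_le _ _ fun i hi => ?_
      rw [Finset.mem_range] at hi
      refine (Polynomial.natDegree_C_mul_le _ _).trans ?_
      refine Polynomial.natDegree_mul_le.trans ?_
      have h1 : ((Polynomial.X : Polynomial (ZMod p)) ^ (2 * (N - i))).natDegree ≤ 2 * (N - i) :=
        Polynomial.natDegree_X_pow_le _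
      have h3 : ((Polynomial.X ^ 2 - 1 : Polynomial (ZMod p)) ^ i).natDegree ≤ i * 2 :=
        Polynomial.natDegree_pow_le_of_le _ (by compute_degree)
      omega
    · have e0 : sg p (Polynomial.aeval (lam (ZMod p)) P) =
          ∑ i ∈ Finset.range (N + 1), PowerSeries.C (P.coeff i) *
            (1 - sg p (xx (ZMod p)) ^ 2) ^ i := by
        rw [Polynomial.aeval_eq_sum_range' (Nat.lt_succ_of_le hP), map_sum]
        refine Finset.sum_congr rfl fun i _ => ?_
        rw [PowerSeries.smul_eq_C_mul, map_mul, map_pow]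
        congr 1
        · ext n
          rw [coeff_sg, PowerSeries.coeff_C]
          split_ifs with h
          · rw [h, pow_zero, one_mul]
          · rw [mul_zero]
        · rw [lam, map_sub, map_one, map_pow]
      rw [map_mul, map_pow, sg_U, e0, ← xx_mul_U, mul_pow, map_sum, Finset.mul_sum, Finset.mul_sum]
      refine Finset.sum_congr rfl fun i hi => ?_
      rw [Finset.mem_range] at hi
      rw [map_mul, Polynomial.aeval_C, map_mul, map_pow, Polynomial.aeval_X, map_pow, map_sub, map_one,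
        map_pow, Polynomial.aeval_X, PowerSeries.algebraMap_apply, Algebra.algebraMap_self,
        RingHom.id_apply]
      have e1 : xx (ZMod p) ^ (2 * N) = xx (ZMod p) ^ (2 * (N - i)) * (xx (ZMod p) ^ 2) ^ i := by
        rw [← pow_mul, ← pow_add]
        congr 1
        omega
      have e2 : (xx (ZMod p) ^ 2) ^ i * (1 - sg p (xx (ZMod p)) ^ 2) ^ i =
          (xx (ZMod p) ^ 2 - 1) ^ i := by
        rw [← mul_pow]
        congr 1
        have h3 := sg_xx (p := p)
        calc xx (ZMod p) ^ 2 * (1 - sg p (xx (ZMod p)) ^ 2) =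
            xx (ZMod p) ^ 2 - (xx (ZMod p) * sg p (xx (ZMod p))) ^ 2 := by ring
          _ = xx (ZMod p) ^ 2 - 1 := by rw [h3, one_pow]
      rw [e1, ← e2]
      ring
  obtain ⟨Q, hQd, hQ2⟩ := hQ
  refine ⟨Polynomial.C ((2 : ZMod p)⁻¹) * (R - Q), ?_, ?_⟩
  · refine (Polynomial.natDegree_C_mul_le _ _).trans ?_
    exact (Polynomial.natDegree_sub_le _ _).trans (max_le hR hQd)
  · unfold od
    rw [hQ2, hR2, map_mul, Polynomial.aeval_C, map_sub, PowerSeries.algebraMap_apply,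
      Algebra.algebraMap_self, RingHom.id_apply]
    ring

theorem od_formX (h2 : p ≠ 2) (N : ℕ) (F : (ZMod p)⟦X⟧) (hF : IsX (ZMod p) N F) :
    ∃ η : Polynomial (ZMod p), η.natDegree ≤ N ∧
      od p F = U (ZMod p) ^ N * Polynomial.aeval (xx (ZMod p)) η := by
  obtain ⟨P, hP, rfl⟩ := hF
  have h2' : p ≠ 2 := h2
  have hQ : ∃ Q : Polynomial (ZMod p), Q.natDegree ≤ N ∧
      sg p (U (ZMod p) ^ N * Polynomial.aeval (xx (ZMod p)) P) =
        U (ZMod p) ^ N * Polynomial.aeval (xx (ZMod p)) Q := by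
    refine ⟨∑ i ∈ Finset.range (N + 1),
      Polynomial.C (P.coeff i) * Polynomial.X ^ (N - i), ?_, ?_⟩
    · refine Polynomial.natDegree_sum_le_of_forall_le _ _ fun i _ => ?_
      refine (Polynomial.natDegree_C_mul_le _ _).trans ?_
      exact (Polynomial.natDegree_X_pow_le _).trans (Nat.sub_le _ _)
    · have e0 : sg p (Polynomial.aeval (xx (ZMod p)) P) =
          ∑ i ∈ Finset.range (N + 1), PowerSeries.C (P.coeff i) * sg p (xx (ZMod p)) ^ i := by
        rw [Polynomial.aeval_eq_sum_range' (Nat.lt_succ_of_le hP), map_sum]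
        refine Finset.sum_congr rfl fun i _ => ?_
        rw [PowerSeries.smul_eq_C_mul, map_mul, map_pow]
        congr 1
        ext n
        rw [coeff_sg, PowerSeries.coeff_C]
        split_ifs with h
        · rw [h, pow_zero, one_mul]
        · rw [mul_zero]
      rw [map_mul, map_pow, sg_U, e0, ← xx_mul_U, mul_pow, map_sum, Finset.mul_sum, Finset.mul_sum]
      refine Finset.sum_congr rfl fun i hi => ?_
      rw [Finset.mem_range] at hi
      rw [map_mul, Polynomial.aeval_C, map_pow, Polynomial.aeval_X, PowerSeries.algebraMap_apply,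
        Algebra.algebraMap_self, RingHom.id_apply]
      have e1 : xx (ZMod p) ^ N = xx (ZMod p) ^ (N - i) * xx (ZMod p) ^ i := by
        rw [← pow_add]
        congr 1
        omega
      have e2 : xx (ZMod p) ^ i * sg p (xx (ZMod p)) ^ i = 1 := by
        rw [← mul_pow, sg_xx, one_pow]
      calc xx (ZMod p) ^ N * U (ZMod p) ^ N * (PowerSeries.C (P.coeff i) * sg p (xx (ZMod p)) ^ i)
          = U (ZMod p) ^ N * (PowerSeries.C (P.coeff i) * xx (ZMod p) ^ (N - i)) *
            (xx (ZMod p) ^ i * sg p (xx (ZMod p)) ^ i) := by rw [e1]; ring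
        _ = U (ZMod p) ^ N * (PowerSeries.C (P.coeff i) * xx (ZMod p) ^ (N - i)) := by
            rw [e2, mul_one]
  obtain ⟨Q, hQd, hQ2⟩ := hQ
  refine ⟨Polynomial.C ((2 : ZMod p)⁻¹) * (P - Q), ?_, ?_⟩
  · refine (Polynomial.natDegree_C_mul_le _ _).trans ?_
    exact (Polynomial.natDegree_sub_le _ _).trans (max_le hP hQd)
  · unfold od
    rw [hQ2, map_mul, Polynomial.aeval_C, map_sub, PowerSeries.algebraMap_apply,
      Algebra.algebraMap_self, RingHom.id_apply]
    ring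

end Pool.Agent.H68.OR
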