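import Pool.Agent.H68.OR.Mem
import Pool.Agent.H68.OR.Op

/-!
# Row ORZSo (project OR, block Z): the odd part of a solution

`sgL : LL p →+* LL p` is the extension of the injective ring homomorphism `sg p` (`sg (sg G) = G`) to the
fraction field (`IsFractionRing.map`), `sgL (io G) = io (sg G)`.
`sgL x_0 = x_0⁻¹` (`sg_xx`, `dd_zero`), `sgL x_i = x_i` for `i ≥ 1` (`sg_dd`), so `sgL` maps `EE 0 m` into itself:
`Subfield.closure_le` for `EE 0 m ≤ Subfield.comap sgL (EE 0 m)`.  `sgL u_0 = io V = u_0 x_0` (`sg_U`, `xx_mul_U`).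
Let `Z = u_0^κ Y` be a solution.  `Z' = sgL Z = u_0^κ (x_0^κ sgL Y)`, and `c Z'^p = Z' - io (sg G)` (`sg (C c) = C c`).
`(Z - Z')/2 = u_0^κ Y2` with `Y2 = (Y - x_0^κ sgL Y)/2 ∈ EE 0 m`, and as `2^p = 2` in characteristic `p`
(`(2 : LL p)^p = 2`: image of `ZMod.pow_card`) and `(Z-Z')^p = Z^p - Z'^p` (`sub_pow_char`):
`c ((Z-Z')/2)^p = (c Z^p - c Z'^p)/2 = (Z - Z')/2 - io ((G - sg G)/2) = .. - io (od G)`.
-/

open PowerSeries

namespace Pool.Agent.H68.OR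

open Pool.Agent.H85.OT Pool.Agent.H6.OR

variable {p : ℕ} [Fact p.Prime]

theorem ORZSo_sg_sg (G : (ZMod p)⟦X⟧) : sg p (sg p G) = G := by
  ext n
  rw [coeff_sg, coeff_sg, ← mul_assoc, ← mul_pow]
  norm_num

theorem ORZSo_sg_C (a : ZMod p) : sg p (PowerSeries.C a) = PowerSeries.C a := by
  ext n
  rw [coeff_sg, PowerSeries.coeff_C]
  by_cases hn : n = 0
  · subst hn
    simp
  · rw [if_neg hn, mul_zero]

theorem ORZSo_inj : Function.Injective ((io p).comp (sg p)) := by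
  intro a b hab
  have h1 : io p (sg p a) = io p (sg p b) := hab
  have h2 := io_inj p h1
  have h3 := congrArg (sg p) h2
  rw [ORZSo_sg_sg, ORZSo_sg_sg] at h3
  exact h3

/-- the extension of `sg` to the fraction field -/
noncomputable def ORZSo_sgL (p : ℕ) [Fact p.Prime] : LL p →+* LL p :=
  IsFractionRing.lift (A := (ZMod p)⟦X⟧) (K := LL p) (g := (io p).comp (sg p)) ORZSo_inj

theorem ORZSo_sgL_io (G : (ZMod p)⟦X⟧) : ORZSo_sgL p (io p G) = io p (sg p G) := by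
  unfold ORZSo_sgL
  exact IsFractionRing.lift_algebraMap (A := (ZMod p)⟦X⟧) (K := LL p) ORZSo_inj G

theorem ORZSo_x0 : ORZSo_sgL p (xL p 0) = (xL p 0)⁻¹ := by
  unfold xL
  rw [dd_zero, ORZSo_sgL_io]
  apply eq_inv_of_mul_eq_one_right
  rw [← map_mul, sg_xx, map_one]

theorem ORZSo_xi (i : ℕ) (hi : 1 ≤ i) : ORZSo_sgL p (xL p i) = xL p i := by
  unfold xL
  rw [ORZSo_sgL_io, sg_dd i hi]

theorem ORZSo_u0 : ORZSo_sgL p (uL p 0) = xL p 0 * uL p 0 := by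
  unfold uL xL
  rw [dd_zero, dd_zero, ORZSo_sgL_io, sg_U, ← map_mul, xx_mul_U]

theorem ORZSo_EE (m : ℕ) : EE p 0 m ≤ Subfield.comap (ORZSo_sgL p) (EE p 0 m) := by
  have h : (EE p 0 m) = Subfield.closure {y | ∃ i, 0 ≤ i ∧ i ≤ m ∧ y = xL p i} := rfl
  conv_lhs => rw [h]
  rw [Subfield.closure_le]
  rintro y ⟨i, hi0, him, rfl⟩
  show ORZSo_sgL p (xL p i) ∈ EE p 0 m
  by_cases hi : i = 0
  · subst hi
    rw [ORZSo_x0]
    exact inv_mem (xL_mem (le_refl 0) him)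
  · rw [ORZSo_xi i (by omega)]
    exact xL_mem hi0 him

theorem ORZSo_two (h2 : p ≠ 2) : io p (PowerSeries.C ((2 : ZMod p)⁻¹)) = (2 : LL p)⁻¹ := by
  apply eq_inv_of_mul_eq_one_left
  have h3 : (2 : LL p) = io p (PowerSeries.C (2 : ZMod p)) := by
    rw [map_ofNat, map_ofNat]
  rw [h3, ← map_mul, ← map_mul, inv_mul_cancel₀ (two_ne h2), map_one, map_one]

theorem ORZSo_two_pow : (2 : LL p) ^ p = 2 := by
  have h3 : (2 : LL p) = io p (PowerSeries.C (2 : ZMod p)) := by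
    rw [map_ofNat, map_ofNat]
  rw [h3, ← map_pow, ← map_pow, ZMod.pow_card]

theorem sol_od (h2 : p ≠ 2) (κ m : ℕ) (c : ZMod p) (G : (ZMod p)⟦X⟧)
    (h : Sol p κ 0 m c G) : Sol p κ 0 m c (od p G) := by
  obtain ⟨Y, hY, he⟩ := h
  have hs := congrArg (ORZSo_sgL p) he
  rw [map_mul, map_sub, map_pow, map_mul, map_pow, ORZSo_sgL_io, ORZSo_sgL_io, ORZSo_sg_C,
    ORZSo_u0] at hs
  have hY' : ORZSo_sgL p Y ∈ EE p 0 m := ORZSo_EE m hY
  obtain ⟨Y', hYe⟩ : ∃ Y' : LL p, Y' = ORZSo_sgL p Y := ⟨_, rfl⟩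
  rw [← hYe] at hs hY'
  have htwo : (2 : LL p) ≠ 0 := two_LL h2
  refine ⟨(Y - xL p 0 ^ κ * Y') * (2 : LL p)⁻¹, ?_, ?_⟩
  · apply mul_mem
    · exact sub_mem hY (mul_mem (pow_mem (xL_mem (le_refl 0) (Nat.zero_le m)) κ) hY')
    · rw [← ORZSo_two h2]
      exact io_C_mem _ _
  · have e1 : uL p 0 ^ κ * ((Y - xL p 0 ^ κ * Y') * (2 : LL p)⁻¹) =
        (uL p 0 ^ κ * Y - (xL p 0 * uL p 0) ^ κ * Y') * (2 : LL p)⁻¹ := by
      rw [mul_pow]
      ring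
    have e2 : io p (od p G) = (2 : LL p)⁻¹ * (io p G - io p (sg p G)) := by
      unfold od
      rw [map_mul, map_sub, ORZSo_two h2]
    rw [e1, e2, mul_pow, sub_pow_char, inv_pow, ORZSo_two_pow]
    linear_combination (2 : LL p)⁻¹ * he - (2 : LL p)⁻¹ * hs

end Pool.Agent.H68.OR
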