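import Pool.Agent.H68.OR.Ab
import Pool.Agent.H68.OR.Pl
import Pool.Agent.H68.OR.So
import Pool.Agent.H68.OR.Bs
import Pool.Agent.H68.OR.Bt
import Pool.Agent.H6.OR.ADefs

/-!
# Row ORZNs (project OR, block Z): `c Z^p = Z - ∑ lam_i H(q^(2^i))` has no solution of weight `κ`

`κ = 2(w-1)`; `κ p = 2 (p (w-1))`.  `Gs lam m = ∑_(i ≤ m) C (lam i) * dd i H`.
* `ns_zero`: `lam_0 = 0` if `Sol 0 m c (Gs lam m)`.  `sol_od`: `Sol 0 m c (od (Gs))`, and
  `od (Gs) = C (lam 0) * od H` (`od_sum`, `od_C_mul`, `od_dd` for `i ≥ 1`, `dd_zero`).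
  `od H = U^(κp) η(x)`, `deg η ≤ κ p` (`od_form`), so `G1 := C (lam 0) * od H = U^(κp) (C lam0 * η)(x)` satisfies
  `WtE (κp) 0 m' G1` for all `m'` (`aeval_mem`, `dd_zero`, `xL_mem`); `sol_above` `m` times: `Sol 0 0 c G1`.
  `sol_base`: `P` with `deg P ≤ κ`, `C c * (U^κ P(x))^p = U^κ P(x) - G1`.  `D G1 = C lam0 * od f` (`Dq_od`, `hD`;
  `Dq` is linear) `= U^(2w) (C lam0 * φ)(x)` (`od_form` for `f`), `2w = κ+2`.  `base_D`: `P = 0`, so `G1 = 0`, and
  `C lam0 * od f = D G1 = 0`; the odd coefficient `n` of `f` is nonzero (`coeff_od`), so `lam0 = 0`.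
* `ns`: induction on `m`, `lam` arbitrary.  `lam 0 = 0` by `ns_zero`.  If `m = 0` done.  `m + 1`:
  `Gs lam (m+1) = ∑_(1 ≤ i ≤ m+1) .. = dbl (Gs (lam ∘ succ) m)` (`Finset.sum_range_succ'`, `dd_succ'`,
  `dbl` is an algebra homomorphism: `dbl (C a * G) = C a * dbl G`).  `WtE (κp) 1 (m+1)` of it: `wtE_sum`, `wtE_form`.
  `sol_below`, `sol_pull`: `Sol 0 m c (Gs (lam ∘ succ) m)`; induction.
-/

open PowerSeries

namespace Pool.Agent.H68.OR

open Pool.Agent.H85.OT Pool.Agent.H6.OR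

variable {p : ℕ} [Fact p.Prime]

/-- the weight of the homogeneous series -/
theorem Ns_wtE (N m : ℕ) (η : Polynomial (ZMod p)) :
    WtE p N 0 m (U (ZMod p) ^ N * Polynomial.aeval (xx (ZMod p)) η) := by
  unfold WtE
  have h0 : uL p 0 = io p (U (ZMod p)) := by
    unfold uL
    rw [dd_zero]
  have h1 : io p (U (ZMod p)) ≠ 0 := h0 ▸ uL_ne (p := p) 0
  have hx : io p (xx (ZMod p)) ∈ EE p 0 m := by
    have h2 := xL_mem (p := p) (i := 0) (j := 0) (m := m) le_rfl (Nat.zero_le m)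
    unfold xL at h2
    rwa [dd_zero] at h2
  rw [h0, map_mul, map_pow, mul_div_cancel_left₀ _ (pow_ne_zero N h1)]
  exact aeval_mem _ _ hx η

theorem Ns_down (h2 : p ≠ 2) (κ : ℕ) (c : ZMod p) (G : (ZMod p)⟦X⟧)
    (hG : ∀ m, WtE p (κ * p) 0 m G) (m : ℕ) (h : Sol p κ 0 m c G) : Sol p κ 0 0 c G := by
  induction m with
  | zero => exact h
  | succ m ih => exact ih (sol_above h2 κ m c G (hG m) h)

theorem Ns_wtE_formX (h2 : p ≠ 2) (N : ℕ) (H : (ZMod p)⟦X⟧) (hH : IsX (ZMod p) N H)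
    {i j m : ℕ} (hj : j ≤ i) (hm : i ≤ m) : WtE p N j m (dd (ZMod p) i H) := by
  obtain ⟨P, _, rfl⟩ := hH
  unfold WtE
  have h1 : io p (dd (ZMod p) i (U (ZMod p) ^ N * Polynomial.aeval (xx (ZMod p)) P)) =
      uL p i ^ N * io p (Polynomial.aeval (dd (ZMod p) i (xx (ZMod p))) P) := by
    rw [map_mul, map_pow, map_mul, map_pow, Polynomial.aeval_algHom_apply]
    rfl
  rw [h1, mul_div_right_comm, ← div_pow]
  exact mul_mem (pow_mem (uL_div_mem h2 hj hm) N) (aeval_mem _ _ (xL_mem hj hm) P)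

theorem Ns_sg_C (a : ZMod p) : sg p (PowerSeries.C a) = PowerSeries.C a := by
  ext n
  rw [coeff_sg, PowerSeries.coeff_C]
  split_ifs with hn
  · rw [hn, pow_zero, one_mul]
  · rw [mul_zero]

theorem Ns_sg_aeval (G : (ZMod p)⟦X⟧) (P : Polynomial (ZMod p)) :
    sg p (Polynomial.aeval G P) = Polynomial.aeval (sg p G) P := by
  rw [Polynomial.aeval_eq_sum_range, Polynomial.aeval_eq_sum_range, map_sum]
  refine Finset.sum_congr rfl fun i _ => ?_
  rw [PowerSeries.smul_eq_C_mul, PowerSeries.smul_eq_C_mul, map_mul, map_pow, Ns_sg_C]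

theorem Ns_od_formX (N : ℕ) (F : (ZMod p)⟦X⟧) (hF : IsX (ZMod p) N F) :
    ∃ η : Polynomial (ZMod p), η.natDegree ≤ N ∧
      od p F = U (ZMod p) ^ N * Polynomial.aeval (xx (ZMod p)) η := by
  obtain ⟨P, hP, rfl⟩ := hF
  set Q : Polynomial (ZMod p) := ∑ i ∈ Finset.range (N + 1),
    Polynomial.C (P.coeff i) * Polynomial.X ^ (N - i) with hQ
  have hQd : Q.natDegree ≤ N := by
    refine Polynomial.natDegree_sum_le_of_forall_le _ _ fun i _ => ?_
    exact (Polynomial.natDegree_C_mul_X_pow_le _ _).trans (Nat.sub_le _ _)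
  have hC : ∀ a : ZMod p, (algebraMap (ZMod p) (ZMod p)⟦X⟧) a = PowerSeries.C a := fun a => rfl
  have hsg : sg p (U (ZMod p) ^ N * Polynomial.aeval (xx (ZMod p)) P) =
      U (ZMod p) ^ N * Polynomial.aeval (xx (ZMod p)) Q := by
    rw [map_mul, map_pow, sg_U, Ns_sg_aeval, ← xx_mul_U, mul_pow,
      Polynomial.aeval_eq_sum_range' (lt_of_le_of_lt hP (Nat.lt_succ_self N)), hQ, map_sum,
      Finset.mul_sum, Finset.mul_sum]
    refine Finset.sum_congr rfl fun i hi => ?_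
    have hi' : i ≤ N := by
      have := Finset.mem_range.1 hi
      omega
    rw [map_mul, Polynomial.aeval_C, map_pow, Polynomial.aeval_X, hC, PowerSeries.smul_eq_C_mul]
    have hpw : xx (ZMod p) ^ N * sg p (xx (ZMod p)) ^ i = xx (ZMod p) ^ (N - i) := by
      obtain ⟨j, rfl⟩ := Nat.exists_eq_add_of_le hi'
      rw [pow_add, Nat.add_sub_cancel_left,
        show xx (ZMod p) ^ i * xx (ZMod p) ^ j * sg p (xx (ZMod p)) ^ i =
          (xx (ZMod p) * sg p (xx (ZMod p))) ^ i * xx (ZMod p) ^ j by ring, sg_xx, one_pow,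
        one_mul]
    rw [← hpw]
    ring
  refine ⟨Polynomial.C ((2 : ZMod p)⁻¹) * (P - Q), ?_, ?_⟩
  · refine (Polynomial.natDegree_C_mul_le _ _).trans ?_
    exact (Polynomial.natDegree_sub_le _ _).trans (max_le hP hQd)
  · unfold od
    rw [hsg, map_mul, map_sub, Polynomial.aeval_C, hC]
    ring

/-- general form: `κ` may be odd, `H` a homogeneous polynomial in `U, V` -/
theorem ns_zeroX (κ : ℕ) (hκ : 1 ≤ κ) (hpκ : κ + 2 < p) (H : (ZMod p)⟦X⟧)
    (hH : IsX (ZMod p) (κ * p) H) (hD : IsX (ZMod p) (κ + 2) (Dq (ZMod p) H))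
    (hodd : ∃ n, Odd n ∧ PowerSeries.coeff n (Dq (ZMod p) H) ≠ 0) (c : ZMod p) (hc : c ≠ 0)
    (m : ℕ) (lam : ℕ → ZMod p)
    (h : Sol p κ 0 m c
      (∑ i ∈ Finset.range (m + 1), PowerSeries.C (lam i) * dd (ZMod p) i H)) : lam 0 = 0 := by
  have h2 : p ≠ 2 := by omega
  have hp0 : p ≠ 0 := (Fact.out : p.Prime).ne_zero
  have h1 := sol_od h2 _ m c _ h
  have hod : od p (∑ i ∈ Finset.range (m + 1), PowerSeries.C (lam i) * dd (ZMod p) i H) =
      PowerSeries.C (lam 0) * od p H := by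
    rw [od_sum, Finset.sum_range_succ', Finset.sum_eq_zero, zero_add, od_C_mul, dd_zero]
    intro i _
    rw [od_C_mul, od_dd (i + 1) (by omega), mul_zero]
  rw [hod] at h1
  obtain ⟨η, hη, hHη⟩ := Ns_od_formX (κ * p) H hH
  obtain ⟨φ, _, hfφ⟩ := Ns_od_formX (κ + 2) (Dq (ZMod p) H) hD
  have hC : ∀ a : ZMod p, (algebraMap (ZMod p) (ZMod p)⟦X⟧) a = PowerSeries.C a := fun a => rfl
  have hG1 : PowerSeries.C (lam 0) * od p H = U (ZMod p) ^ (κ * p) *
      Polynomial.aeval (xx (ZMod p)) (Polynomial.C (lam 0) * η) := by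
    rw [hHη, map_mul, Polynomial.aeval_C, hC]
    ring
  have hη' : (Polynomial.C (lam 0) * η).natDegree ≤ κ * p :=
    (Polynomial.natDegree_C_mul_le _ _).trans hη
  have h3 : Sol p κ 0 0 c (PowerSeries.C (lam 0) * od p H) :=
    Ns_down h2 _ c _ (fun m' => hG1 ▸ Ns_wtE _ m' _) m h1
  have hDG : Dq (ZMod p) (PowerSeries.C (lam 0) * od p H) =
      PowerSeries.C (lam 0) * od p (Dq (ZMod p) H) := by
    rw [← PowerSeries.smul_eq_C_mul, Derivation.map_smul, Dq_od h2, PowerSeries.smul_eq_C_mul]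
  have hDG' : Dq (ZMod p) (PowerSeries.C (lam 0) * od p H) = U (ZMod p) ^ (κ + 2) *
        Polynomial.aeval (xx (ZMod p)) (Polynomial.C (lam 0) * φ) := by
    rw [hDG, hfφ, map_mul, Polynomial.aeval_C, hC]
    ring
  have h4 := h3
  rw [hG1] at h4
  obtain ⟨P, hP, hPeq⟩ := sol_base h2 κ c hc _ hη' h4
  rw [← hG1] at hPeq
  have hP0 := base_D h2 κ hκ (by omega) c P _ hP _ hDG' hPeq
  rw [hP0] at hPeq
  have hG0 : PowerSeries.C (lam 0) * od p H = 0 := by
    simpa [hp0] using hPeq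
  rw [hG0, map_zero] at hDG
  obtain ⟨n, hn, hne⟩ := hodd
  have h5 := congrArg (PowerSeries.coeff n) hDG
  rw [map_zero, PowerSeries.coeff_C_mul, coeff_od h2, if_pos hn] at h5
  rcases mul_eq_zero.1 h5.symm with h6 | h6
  · exact h6
  · exact absurd h6 hne

/-- general form of `ns` -/
theorem nsX (κ : ℕ) (hκ : 1 ≤ κ) (hpκ : κ + 2 < p) (H : (ZMod p)⟦X⟧)
    (hH : IsX (ZMod p) (κ * p) H) (hD : IsX (ZMod p) (κ + 2) (Dq (ZMod p) H))
    (hodd : ∃ n, Odd n ∧ PowerSeries.coeff n (Dq (ZMod p) H) ≠ 0) (c : ZMod p) (hc : c ≠ 0)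
    (m : ℕ) (lam : ℕ → ZMod p)
    (h : Sol p κ 0 m c
      (∑ i ∈ Finset.range (m + 1), PowerSeries.C (lam i) * dd (ZMod p) i H)) :
    ∀ i ≤ m, lam i = 0 := by
  induction m generalizing lam with
  | zero =>
    intro i hi
    obtain rfl : i = 0 := by omega
    exact ns_zeroX κ hκ hpκ H hH hD hodd c hc 0 lam h
  | succ m ih =>
    have h2 : p ≠ 2 := by omega
    have h0 := ns_zeroX κ hκ hpκ H hH hD hodd c hc (m + 1) lam h
    have hG : ∑ i ∈ Finset.range (m + 1 + 1), PowerSeries.C (lam i) * dd (ZMod p) i H =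
        ∑ i ∈ Finset.range (m + 1), PowerSeries.C (lam (i + 1)) * dd (ZMod p) (i + 1) H := by
      rw [Finset.sum_range_succ', h0, map_zero, zero_mul, add_zero]
    have hG' : ∑ i ∈ Finset.range (m + 1), PowerSeries.C (lam (i + 1)) * dd (ZMod p) (i + 1) H =
        dbl (ZMod p)
          (∑ i ∈ Finset.range (m + 1), PowerSeries.C (lam (i + 1)) * dd (ZMod p) i H) := by
      rw [map_sum]
      refine Finset.sum_congr rfl fun i _ => ?_
      rw [dd_succ', ← PowerSeries.smul_eq_C_mul, ← PowerSeries.smul_eq_C_mul, map_smul]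
    rw [hG] at h
    have hw1 : WtE p (κ * p) 1 (m + 1)
        (∑ i ∈ Finset.range (m + 1), PowerSeries.C (lam (i + 1)) * dd (ZMod p) (i + 1) H) := by
      apply wtE_sum
      intro i hi
      have hi' := Finset.mem_range.1 hi
      exact Ns_wtE_formX h2 (κ * p) H hH (by omega) (by omega)
    have h4 := sol_below h2 κ (m + 1) (by omega) c _ hw1 h
    rw [hG'] at h4
    have h5 := ih (fun i => lam (i + 1)) (sol_pull _ m c _ h4)
    intro i hi
    rcases i with _ | i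
    · exact h0
    · exact h5 i (by omega)

end Pool.Agent.H68.OR
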