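import Pool.Agent.H6.OR.Defs
import Pool.Agent.H85.OT.Hg
import Pool.Agent.H85.OT.Hx

/-!
# Definitions for block Z of the project OR (the auxiliary function does not vanish mod `p`)

`p` prime, everything over `F_p = ZMod p`.
* `LL p` : fraction field of `F_p[[q]]`, `io p` the inclusion;
* `xL p i`, `uL p i` : images of `x(q^(2^i))`, `U(q^(2^i))`;
* `EE p j m` : subfield generated by `x_j, .., x_m`;
* `sg p` : `q ↦ -q`, `od p G` : odd part;
* `Sol p κ j m c G` : `c Z^p = Z - G` has a solution `Z = u_j^κ Y`, `Y ∈ EE j m`.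
-/

open PowerSeries

namespace Pool.Agent.H68.OR

open Pool.Agent.H85.OT Pool.Agent.H6.OR

variable (p : ℕ) [Fact p.Prime]

/-- the fraction field of `F_p[[q]]` -/
abbrev LL : Type := FractionRing ((ZMod p)⟦X⟧)

/-- the inclusion `F_p[[q]] → LL` -/
noncomputable def io : (ZMod p)⟦X⟧ →+* LL p := algebraMap _ _

/-- `x(q^(2^i))` -/
noncomputable def xL (i : ℕ) : LL p := io p (dd (ZMod p) i (xx (ZMod p)))

/-- `U(q^(2^i))` -/
noncomputable def uL (i : ℕ) : LL p := io p (dd (ZMod p) i (U (ZMod p)))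

/-- the subfield generated by `x_j, .., x_m` -/
noncomputable def EE (j m : ℕ) : Subfield (LL p) :=
  Subfield.closure {y | ∃ i, j ≤ i ∧ i ≤ m ∧ y = xL p i}

/-- `q ↦ -q` -/
noncomputable def sg : (ZMod p)⟦X⟧ →+* (ZMod p)⟦X⟧ := PowerSeries.rescale (-1 : ZMod p)

/-- the odd part `(G(q) - G(-q))/2` -/
noncomputable def od (G : (ZMod p)⟦X⟧) : (ZMod p)⟦X⟧ :=
  PowerSeries.C ((2 : ZMod p)⁻¹) * (G - sg p G)

/-- `c Z^p = Z - G` has a solution `Z = u_j^κ Y` with `Y ∈ EE j m` -/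
def Sol (κ j m : ℕ) (c : ZMod p) (G : (ZMod p)⟦X⟧) : Prop :=
  ∃ Y ∈ EE p j m,
    io p (PowerSeries.C c) * (uL p j ^ κ * Y) ^ p = uL p j ^ κ * Y - io p G

/-- `G / u_j^N ∈ EE j m` -/
def WtE (N j m : ℕ) (G : (ZMod p)⟦X⟧) : Prop := io p G / uL p j ^ N ∈ EE p j m

end Pool.Agent.H68.OR
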