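import Pool.Agent.H68.OR.Mem
import Pool.Agent.H6.OR.ADefs

/-!
# Block Z: weights of forms in `U, V`
-/

open PowerSeries

namespace Pool.Agent.H68.OR

open Pool.Agent.H85.OT Pool.Agent.H6.OR

variable {p : ℕ} [Fact p.Prime]

theorem wtE_formX (h2 : p ≠ 2) (N : ℕ) (H : (ZMod p)⟦X⟧) (hH : IsX (ZMod p) N H) {i j m : ℕ}
    (hj : j ≤ i) (hm : i ≤ m) : WtE p N j m (dd (ZMod p) i H) := by
  obtain ⟨P, _, rfl⟩ := hH
  unfold WtE
  have h3 : io p (dd (ZMod p) i (U (ZMod p) ^ N * Polynomial.aeval (xx (ZMod p)) P)) /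
      uL p j ^ N = (uL p i / uL p j) ^ N *
      io p (Polynomial.aeval (dd (ZMod p) i (xx (ZMod p))) P) := by
    have h4 : dd (ZMod p) i (Polynomial.aeval (xx (ZMod p)) P) =
        Polynomial.aeval (dd (ZMod p) i (xx (ZMod p))) P := by
      rw [← Polynomial.aeval_algHom_apply]
    rw [map_mul, map_pow, h4, map_mul, map_pow, div_pow]
    change uL p i ^ N * _ / uL p j ^ N = _
    ring
  rw [h3]
  exact mul_mem (pow_mem (uL_div_mem h2 hj hm) _) (aeval_mem _ _ (xL_mem hj hm) _)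

end Pool.Agent.H68.OR
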