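import Mathlib

/-!
# Row ORZIa (project OR, block Z): exponent vectors `Fin r → Fin p` and the weight `om`

`om e = |e| p^r + ∑ e_i p^i` where `|e| = ∑ e_i` and the second term is `finFunctionFinEquiv e < p^r`
(`finFunctionFinEquiv_apply`).
* `om_inj`: mod `p^r` the second terms agree (both `< p^r`, use e.g. `Nat.add_mul_mod_self`), and
  `finFunctionFinEquiv` is injective.
* `om_mono`: both sums are monotone.
* `om_wt`: `|e| p^r ≤ om e ≤ om e' < (|e'| + 1) p^r`.
* `exists_max`: `Finset.exists_max_image` on `univ.filter (σ e ≠ 0)` and `om`.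
* `eq_natCast`: `y^p = y` in a field of characteristic `p`: `Subfield.mem_bot_iff_pow_eq_self`,
  `Subfield.mem_bot_iff_intCast` give `y = (n : L)`, `n : ℤ`; replace `n` by `n mod p` (`CharP.cast_eq_zero`,
  `Int.emod_add_ediv`..).
-/

namespace Pool.Agent.H68.OR

/-- `|e| = ∑ e_i` -/
def wf {r p : ℕ} (e : Fin r → Fin p) : ℕ := ∑ i, (e i : ℕ)

/-- `|e| p^r + ∑ e_i p^i` -/
def om {r p : ℕ} (e : Fin r → Fin p) : ℕ := wf e * p ^ r + (finFunctionFinEquiv e : ℕ)

theorem om_inj {r p : ℕ} {e e' : Fin r → Fin p} (h : om e = om e') : e = e' := by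
  apply (finFunctionFinEquiv (m := p) (n := r)).injective
  apply Fin.ext
  have h1 : om e % p ^ r = om e' % p ^ r := by rw [h]
  unfold om at h1
  rw [mul_comm, Nat.mul_add_mod, mul_comm, Nat.mul_add_mod, Nat.mod_eq_of_lt (Fin.is_lt _),
    Nat.mod_eq_of_lt (Fin.is_lt _)] at h1
  exact h1

theorem om_mono {r p : ℕ} {e e' : Fin r → Fin p} (h : ∀ i, (e i : ℕ) ≤ e' i) : om e ≤ om e' := by
  unfold om wf
  rw [finFunctionFinEquiv_apply, finFunctionFinEquiv_apply]
  refine Nat.add_le_add (Nat.mul_le_mul_right _ (Finset.sum_le_sum fun i _ => h i))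
    (Finset.sum_le_sum fun i _ => Nat.mul_le_mul_right _ (h i))

theorem om_wt {r p : ℕ} {e e' : Fin r → Fin p} (h : om e ≤ om e') : wf e ≤ wf e' := by
  have h1 : (finFunctionFinEquiv e' : ℕ) < p ^ r := Fin.is_lt _
  unfold om at h
  have h2 : wf e * p ^ r < (wf e' + 1) * p ^ r := by
    rw [add_mul, one_mul]
    omega
  have h3 := lt_of_mul_lt_mul_right h2 (Nat.zero_le _)
  omega

theorem exists_max {r p : ℕ} {L : Type*} [Zero L] (σ : (Fin r → Fin p) → L) (h : σ ≠ 0) :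
    ∃ a, σ a ≠ 0 ∧ ∀ e, σ e ≠ 0 → om e ≤ om a := by
  classical
  obtain ⟨e0, he0⟩ := Function.ne_iff.1 h
  obtain ⟨a, ha, hmax⟩ := Finset.exists_max_image
    (Finset.univ.filter fun e : Fin r → Fin p => σ e ≠ 0) om
    ⟨e0, Finset.mem_filter.2 ⟨Finset.mem_univ _, he0⟩⟩
  exact ⟨a, (Finset.mem_filter.1 ha).2, fun e he =>
    hmax e (Finset.mem_filter.2 ⟨Finset.mem_univ _, he⟩)⟩

theorem eq_natCast' {p : ℕ} [Fact p.Prime] {L : Type*} [Field L] [CharP L p] {y : L}
    (h : y ^ p = y) : ∃ n : ℕ, y = (n : L) := by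
  have h1 := (Subfield.mem_bot_iff_pow_eq_self (F := L) (p := p)).2 h
  rw [mem_bot_iff_intCast p L] at h1
  obtain ⟨n, hn⟩ := h1
  have hp : (p : ℤ) ≠ 0 := by exact_mod_cast (Fact.out : p.Prime).ne_zero
  refine ⟨(n % p).toNat, ?_⟩
  have h2 : (((n % p).toNat : ℤ) : L) = ((n % p : ℤ) : L) := by
    rw [Int.toNat_of_nonneg (Int.emod_nonneg n hp)]
  rw [← Int.cast_natCast, h2, ← hn]
  have h3 : (n : L) = ((n % p + p * (n / p) : ℤ) : L) := by rw [Int.emod_add_mul_ediv]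
  rw [h3, Int.cast_add, Int.cast_mul, Int.cast_natCast, CharP.cast_eq_zero L p, zero_mul, add_zero]

end Pool.Agent.H68.OR
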