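import Pool.Agent.H68.OR.Ia

/-!
# Row ORZIb (project OR, block Z): Frobenius of a combination of the monomials `φ^e`

`L` a field of characteristic `p`, `c ≠ 0`, `c φ_i^p = a φ_i - b_i`, i.e. `φ_i^p = (a/c) φ_i + (-b_i/c)`.
`Gm a c b e k = ∏_i C(e_i,k_i) (a/c)^(k_i) (-b_i/c)^(e_i - k_i)`.
* `frob_sum`: `sum_pow_char` (or `map_sum (frobenius L p)`), `mul_pow`, `Finset.prod_pow`;
  `(φ_i^(e_i))^p = (φ_i^p)^(e_i) = ((a/c) φ_i + (-b_i/c))^(e_i) = ∑_(k < p) C(e_i,k) (a/c)^k (-b_i/c)^(e_i-k) φ_i^k`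
  (`add_pow`, sum over `range (e_i+1)`, extended to `Fin p` because `Nat.choose` vanishes for `k > e_i`);
  then `Finset.prod_univ_sum` / `Fintype.piFinset_univ` (product of sums = sum over functions) and exchange the
  two sums.
* `Gm_eq_zero`: a factor `C(e_i,k_i)` with `k_i > e_i` vanishes.
* `Gm_self`: `∏ (a/c)^(e_i) = (a/c)^|e|` (`Finset.prod_pow_eq_pow_sum`).
* `Gm_succ`: if `e j = k j + 1` and `e i = k i` for `i ≠ j`: only the factor `j` is different: it is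
  `(k_j+1) (a/c)^(k_j) (-b_j/c)`.
* `Gm_mem`: `Gm a c b e k ∈ K` if `a, c, b_i ∈ K` (`Subfield`: `prod_mem`, `mul_mem`, `pow_mem`, `div_mem`,
  `natCast_mem`).
-/

namespace Pool.Agent.H68.OR

/-- `∏_i C(e_i,k_i) (a/c)^(k_i) (-b_i/c)^(e_i - k_i)` -/
noncomputable def Gm {L : Type*} [Field L] {r p : ℕ} (a c : L) (b : Fin r → L)
    (e k : Fin r → Fin p) : L :=
  ∏ i, (((e i : ℕ).choose (k i : ℕ) : ℕ) : L) * (a / c) ^ (k i : ℕ) *
    (-b i / c) ^ ((e i : ℕ) - (k i : ℕ))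

variable {L : Type*} [Field L] {r p : ℕ}

/-- the binomial expansion with `Fin p` as index set -/
theorem Ib_binom {L : Type*} [Field L] {p : ℕ} (x y φ : L) (e : Fin p) :
    (x * φ + y) ^ (e : ℕ) =
      ∑ k : Fin p, (((e : ℕ).choose (k : ℕ) : ℕ) : L) * x ^ (k : ℕ) * y ^ ((e : ℕ) - (k : ℕ)) *
        φ ^ (k : ℕ) := by
  rw [Fin.sum_univ_eq_sum_range
    (fun m => (((e : ℕ).choose m : ℕ) : L) * x ^ m * y ^ ((e : ℕ) - m) * φ ^ m) p, add_pow]
  have hsub : Finset.range ((e : ℕ) + 1) ⊆ Finset.range p := by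
    intro m hm
    have h1 := Finset.mem_range.1 hm
    have h2 := e.isLt
    exact Finset.mem_range.2 (by omega)
  rw [← Finset.sum_subset hsub]
  · refine Finset.sum_congr rfl fun m _ => ?_
    rw [mul_pow]
    ring
  · intro m _ hm
    have h1 : (e : ℕ) < m := by
      by_contra h
      exact hm (Finset.mem_range.2 (by omega))
    rw [Nat.choose_eq_zero_of_lt h1]
    simp

theorem frob_sum [Fact p.Prime] [CharP L p] (φ b : Fin r → L) (a c : L) (hc0 : c ≠ 0)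
    (hφ : ∀ i, c * φ i ^ p = a * φ i - b i) (σ : (Fin r → Fin p) → L) :
    (∑ e, σ e * ∏ i, φ i ^ (e i : ℕ)) ^ p =
      ∑ k, (∑ e, σ e ^ p * Gm a c b e k) * ∏ i, φ i ^ (k i : ℕ) := by
  have hφ' : ∀ i, φ i ^ p = a / c * φ i + -b i / c := by
    intro i
    have h := hφ i
    field_simp
    linear_combination h
  have hterm : ∀ e : Fin r → Fin p, (σ e * ∏ i, φ i ^ (e i : ℕ)) ^ p =
      ∑ k : Fin r → Fin p, σ e ^ p * Gm a c b e k * ∏ i, φ i ^ (k i : ℕ) := by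
    intro e
    have h1 : (σ e * ∏ i, φ i ^ (e i : ℕ)) ^ p =
        σ e ^ p * ∏ i, (φ i ^ p) ^ (e i : ℕ) := by
      rw [mul_pow, ← Finset.prod_pow]
      congr 1
      refine Finset.prod_congr rfl fun i _ => ?_
      rw [← pow_mul, ← pow_mul, mul_comm]
    rw [h1]
    have h2 : ∏ i, (φ i ^ p) ^ (e i : ℕ) =
        ∏ i, ∑ k : Fin p, (((e i : ℕ).choose (k : ℕ) : ℕ) : L) * (a / c) ^ (k : ℕ) *
          (-b i / c) ^ ((e i : ℕ) - (k : ℕ)) * φ i ^ (k : ℕ) := by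
      refine Finset.prod_congr rfl fun i _ => ?_
      rw [hφ' i, Ib_binom]
    rw [h2, Finset.prod_univ_sum, Fintype.piFinset_univ, Finset.mul_sum]
    refine Finset.sum_congr rfl fun k _ => ?_
    rw [Finset.prod_mul_distrib]
    unfold Gm
    ring
  have hfr : (∑ e, σ e * ∏ i, φ i ^ (e i : ℕ)) ^ p =
      ∑ e, (σ e * ∏ i, φ i ^ (e i : ℕ)) ^ p := by
    have h := map_sum (frobenius L p) (fun e : Fin r → Fin p => σ e * ∏ i, φ i ^ (e i : ℕ))
      Finset.univ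
    simpa only [frobenius_def] using h
  rw [hfr, Finset.sum_congr rfl fun e _ => hterm e, Finset.sum_comm]
  refine Finset.sum_congr rfl fun k _ => ?_
  rw [Finset.sum_mul]

theorem Gm_eq_zero (a c : L) (b : Fin r → L) (e k : Fin r → Fin p)
    (h : ¬ ∀ i, (k i : ℕ) ≤ e i) : Gm a c b e k = 0 := by
  obtain ⟨i, hi⟩ := not_forall.1 h
  unfold Gm
  apply Finset.prod_eq_zero (Finset.mem_univ i)
  rw [Nat.choose_eq_zero_of_lt (not_le.1 hi)]
  simp

theorem Gm_self (a c : L) (b : Fin r → L) (e : Fin r → Fin p) :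
    Gm a c b e e = (a / c) ^ wf e := by
  unfold Gm wf
  rw [← Finset.prod_pow_eq_pow_sum]
  refine Finset.prod_congr rfl fun i _ => ?_
  simp

theorem Gm_succ (a c : L) (b : Fin r → L) (e k : Fin r → Fin p) (j : Fin r)
    (hj : (e j : ℕ) = k j + 1) (hi : ∀ i, i ≠ j → e i = k i) :
    Gm a c b e k = (((k j : ℕ) + 1 : ℕ) : L) * (a / c) ^ wf k * (-b j / c) := by
  unfold Gm wf
  rw [← Finset.prod_pow_eq_pow_sum, ← Finset.mul_prod_erase Finset.univ _ (Finset.mem_univ j),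
    ← Finset.mul_prod_erase Finset.univ (fun i => (a / c) ^ (k i : ℕ)) (Finset.mem_univ j)]
  have h1 : ∏ i ∈ Finset.univ.erase j, (((e i : ℕ).choose (k i : ℕ) : ℕ) : L) *
      (a / c) ^ (k i : ℕ) * (-b i / c) ^ ((e i : ℕ) - (k i : ℕ)) =
      ∏ i ∈ Finset.univ.erase j, (a / c) ^ (k i : ℕ) := by
    refine Finset.prod_congr rfl fun i hij => ?_
    rw [hi i (Finset.ne_of_mem_erase hij)]
    simp
  rw [h1, hj, Nat.choose_succ_self_right, show (k j : ℕ) + 1 - (k j : ℕ) = 1 by omega, pow_one]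
  ring

theorem Gm_mem (K : Subfield L) (a c : L) (b : Fin r → L) (ha : a ∈ K) (hc : c ∈ K)
    (hb : ∀ i, b i ∈ K) (e k : Fin r → Fin p) : Gm a c b e k ∈ K := by
  unfold Gm
  refine prod_mem fun i _ => ?_
  exact mul_mem (mul_mem (natCast_mem K _) (pow_mem (div_mem ha hc) _))
    (pow_mem (div_mem (neg_mem (hb i)) hc) _)

end Pool.Agent.H68.OR
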