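import Pool.Agent.H68.OR.Ib

/-!
# Row ORZIc (project OR, block Z): the coefficients just below the top

Let `d = wf k0 + 1`, `σ : (Fin r → Fin p) → L` with `σ e = 0` for `wf e > d`, and
`(c/a)^d ∑_e σ_e^p Gm e k = σ_k` for all `k` (`hfix`).
* `top_frob`: for `wf k = d` : the terms of the sum are nonzero only if `k ≤ e` (`Gm_eq_zero`) and
  `wf e ≤ d = wf k`, so `e = k` (componentwise `≤` and equal sums: `Finset.sum_eq_sum_iff_of_le`).  The sum is
  `σ_k^p (a/c)^d` (`Gm_self`), hence `σ_k^p = σ_k`.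
* `next_eq`: for `wf k = d - 1`, i.e. `wf k + 1 = d`: the nonzero terms have `k ≤ e`, `wf e ≤ wf k + 1`: either
  `e = k` or `e = k + 1_j` for exactly one `j` (then `k_j + 1 < p`).  With natural numbers `n_j` such that
  `σ_(k+1_j) = n_j` (if `k_j + 1 < p`; from `eq_natCast'` and `top_frob`), put
  `lam_j = (k_j + 1) n_j` if `k_j + 1 < p`, and `0` otherwise.  `Gm_succ`, `Gm_self`:
  `(c/a)^d (a/c)^(d-1) (σ_k^p + ∑_j lam_j (-b_j/c)) = σ_k` (use `n_j^p = n_j` in `L`: this is `σ^p = σ`), so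
  `(c/a) σ_k^p - (1/a) ∑ lam_j b_j = σ_k`, i.e. `c σ_k^p = a σ_k + ∑ lam_j b_j`.
  To write the sum: `∑_e F e = F k + ∑_j (if h : k_j + 1 < p then F (Function.update k j ⟨k_j+1,h⟩) else 0)`
  whenever `F e = 0` unless `k ≤ e`, `wf e ≤ wf k + 1` (prove this as a lemma, `sum_next`).
  In the statement: `e j0 = k j0 + 1`, `e i = k i` (`i ≠ j0`), `σ e = 1`: then `n_(j0) = 1` may be chosen and
  `lam_(j0) = e_(j0)` is not divisible by `p` (`0 < e_(j0) < p`).
-/

namespace Pool.Agent.H68.OR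

variable {L : Type*} [Field L] {r p : ℕ}

private def sc (x : Fin p) : Fin p := if h : (x : ℕ) + 1 < p then ⟨x + 1, h⟩ else x

private lemma sc_val {x : Fin p} (h : (x : ℕ) + 1 < p) : ((sc x : Fin p) : ℕ) = x + 1 := by
  unfold sc
  rw [dif_pos h]

private def up (k : Fin r → Fin p) (j : Fin r) : Fin r → Fin p := Function.update k j (sc (k j))

private lemma up_self (k : Fin r → Fin p) {j : Fin r} (h : (k j : ℕ) + 1 < p) :
    ((up k j j : Fin p) : ℕ) = k j + 1 := by
  unfold up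
  rw [Function.update_self, sc_val h]

private lemma up_ne (k : Fin r → Fin p) {j i : Fin r} (h : i ≠ j) : up k j i = k i := by
  unfold up
  rw [Function.update_of_ne h]

private lemma wf_up (k : Fin r → Fin p) {j : Fin r} (h : (k j : ℕ) + 1 < p) :
    wf (up k j) = wf k + 1 := by
  unfold wf
  rw [← Finset.add_sum_erase _ _ (Finset.mem_univ j),
    ← Finset.add_sum_erase (Finset.univ) (fun i => ((k i : Fin p) : ℕ)) (Finset.mem_univ j), up_self k h]
  have : ∑ i ∈ Finset.univ.erase j, ((up k j i : Fin p) : ℕ) = ∑ i ∈ Finset.univ.erase j, ((k i : Fin p) : ℕ) :=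
    Finset.sum_congr rfl fun i hi => by rw [up_ne k (Finset.ne_of_mem_erase hi)]
  rw [this]
  ring

private lemma eq_of_le {k e : Fin r → Fin p} (h : ∀ i, (k i : ℕ) ≤ e i) (hw : wf e ≤ wf k) : e = k := by
  have h1 : wf k = wf e := le_antisymm (Finset.sum_le_sum fun i _ => h i) hw
  have h2 := (Finset.sum_eq_sum_iff_of_le (fun i _ => h i)).1 h1
  funext i
  exact (Fin.ext (h2 i (Finset.mem_univ i))).symm

private lemma eq_or_up {k e : Fin r → Fin p} (h : ∀ i, (k i : ℕ) ≤ e i) (hw : wf e ≤ wf k + 1)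
    (hne : e ≠ k) : ∃ j, (k j : ℕ) + 1 < p ∧ e = up k j := by
  obtain ⟨j, hj⟩ : ∃ j, e j ≠ k j := by
    by_contra hc
    push Not at hc
    exact hne (funext hc)
  have hjlt : (k j : ℕ) < e j := lt_of_le_of_ne (h j) fun hh => hj (Fin.ext hh).symm
  have hjp : (k j : ℕ) + 1 < p := lt_of_le_of_lt hjlt (e j).2
  refine ⟨j, hjp, ?_⟩
  refine eq_of_le (fun i => ?_) ?_
  · by_cases hij : i = j
    · rw [hij, up_self k hjp]
      exact hjlt
    · rw [up_ne k hij]
      exact h i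
  · rw [wf_up k hjp]
    exact hw

private lemma sum_next (k : Fin r → Fin p) (F : (Fin r → Fin p) → L)
    (hF : ∀ e, F e ≠ 0 → (∀ i, (k i : ℕ) ≤ e i) ∧ wf e ≤ wf k + 1) :
    ∑ e, F e = F k + ∑ j ∈ Finset.univ.filter (fun j => (k j : ℕ) + 1 < p), F (up k j) := by
  classical
  have hinj : Set.InjOn (up k) (Finset.univ.filter (fun j => (k j : ℕ) + 1 < p) : Finset (Fin r)) := by
    intro i hi j hj hij
    by_contra hne
    have hi' := (Finset.mem_filter.1 (Finset.mem_coe.1 hi)).2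
    have h1 := congrFun hij i
    rw [up_ne k hne] at h1
    have h2 := up_self k hi'
    rw [h1] at h2
    omega
  rw [← Finset.sum_image (g := up k) hinj]
  have hk : k ∉ Finset.image (up k) (Finset.univ.filter (fun j => (k j : ℕ) + 1 < p)) := by
    intro hm
    obtain ⟨j, hj, hjk⟩ := Finset.mem_image.1 hm
    have hj' := (Finset.mem_filter.1 hj).2
    have h2 := up_self k hj'
    rw [hjk] at h2
    omega
  rw [← Finset.sum_insert hk]
  symm
  refine Finset.sum_subset (Finset.subset_univ _) fun e _ he => ?_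
  by_contra h0
  obtain ⟨h1, h2⟩ := hF e h0
  apply he
  by_cases hek : e = k
  · rw [hek]
    exact Finset.mem_insert_self _ _
  · obtain ⟨j, hj, hje⟩ := eq_or_up h1 h2 hek
    refine Finset.mem_insert_of_mem (Finset.mem_image.2 ⟨j, Finset.mem_filter.2 ⟨Finset.mem_univ _, hj⟩, hje.symm⟩)

theorem top_frob [Fact p.Prime] [CharP L p] (b : Fin r → L) (a c : L) (ha0 : a ≠ 0) (hc0 : c ≠ 0)
    (σ : (Fin r → Fin p) → L) (d : ℕ) (hd : ∀ e, σ e ≠ 0 → wf e ≤ d)
    (hfix : ∀ k, (c / a) ^ d * ∑ e, σ e ^ p * Gm a c b e k = σ k) (k : Fin r → Fin p)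
    (hk : wf k = d) : σ k ^ p = σ k := by
  have hp0 : p ≠ 0 := (Fact.out : p.Prime).ne_zero
  have h1 : ∑ e, σ e ^ p * Gm a c b e k = σ k ^ p * Gm a c b k k := by
    refine Finset.sum_eq_single k (fun e _ hek => ?_) (fun h => absurd (Finset.mem_univ k) h)
    by_contra h0
    have hs : σ e ≠ 0 := by
      intro hs
      apply h0
      rw [hs, zero_pow hp0, zero_mul]
    have hle : ∀ i, (k i : ℕ) ≤ e i := by
      by_contra hh
      exact h0 (by rw [Gm_eq_zero a c b e k hh, mul_zero])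
    exact hek (eq_of_le hle (by rw [hk]; exact hd e hs))
  have h2 := hfix k
  rw [h1, Gm_self, hk] at h2
  have h3 : (c / a) ^ d * (σ k ^ p * (a / c) ^ d) = σ k ^ p := by
    rw [mul_comm (σ k ^ p), ← mul_assoc, ← mul_pow, div_mul_div_comm, mul_comm c a,
      div_self (mul_ne_zero ha0 hc0), one_pow, one_mul]
  rw [h3] at h2
  exact h2

theorem next_eq [Fact p.Prime] [CharP L p] (b : Fin r → L) (a c : L) (ha0 : a ≠ 0) (hc0 : c ≠ 0)
    (σ : (Fin r → Fin p) → L) (d : ℕ) (hd : ∀ e, σ e ≠ 0 → wf e ≤ d)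
    (hfix : ∀ k, (c / a) ^ d * ∑ e, σ e ^ p * Gm a c b e k = σ k) (k e0 : Fin r → Fin p)
    (hk : wf k + 1 = d) (j0 : Fin r) (hj : (e0 j0 : ℕ) = k j0 + 1) (hi : ∀ i, i ≠ j0 → e0 i = k i)
    (h1 : σ e0 = 1) :
    ∃ lam : Fin r → ℕ, ¬ p ∣ lam j0 ∧ c * σ k ^ p = a * σ k + ∑ i, (lam i : L) * b i := by
  classical
  have hp : p.Prime := Fact.out
  have hp0 : p ≠ 0 := hp.ne_zero
  have hn : ∀ j : Fin r, ∃ n : ℕ, (k j : ℕ) + 1 < p → σ (up k j) = (n : L) := by
    intro j
    by_cases h : (k j : ℕ) + 1 < p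
    · obtain ⟨n, hn⟩ := eq_natCast' (top_frob b a c ha0 hc0 σ d hd hfix (up k j) (by rw [wf_up k h, hk]))
      exact ⟨n, fun _ => hn⟩
    · exact ⟨0, fun h' => absurd h' h⟩
  choose n hn using hn
  have hj0p : (k j0 : ℕ) + 1 < p := by rw [← hj]; exact (e0 j0).2
  have he0 : e0 = up k j0 := by
    funext i
    by_cases hij : i = j0
    · rw [hij]
      exact Fin.ext (by rw [hj, up_self k hj0p])
    · rw [up_ne k hij, hi i hij]
  refine ⟨fun j => if (k j : ℕ) + 1 < p then ((k j : ℕ) + 1) * n j else 0, ?_, ?_⟩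
  · show ¬ p ∣ (if (k j0 : ℕ) + 1 < p then ((k j0 : ℕ) + 1) * n j0 else 0)
    rw [if_pos hj0p]
    intro hdv
    rcases (Nat.Prime.dvd_mul hp).1 hdv with h | h
    · exact absurd (Nat.le_of_dvd (Nat.succ_pos _) h) (not_le.2 hj0p)
    · have h2 : ((n j0 : ℕ) : L) = 0 := (CharP.cast_eq_zero_iff L p (n j0)).2 h
      rw [← hn j0 hj0p, ← he0, h1] at h2
      exact one_ne_zero h2
  · have hsum := sum_next k (fun e => σ e ^ p * Gm a c b e k) (fun e h0 => by
      have hs : σ e ≠ 0 := by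
        intro hs
        apply h0
        show σ e ^ p * Gm a c b e k = 0
        rw [hs, zero_pow hp0, zero_mul]
      have hle : ∀ i, (k i : ℕ) ≤ e i := by
        by_contra hh
        apply h0
        show σ e ^ p * Gm a c b e k = 0
        rw [Gm_eq_zero a c b e k hh, mul_zero]
      exact ⟨hle, by rw [hk]; exact hd e hs⟩)
    have hterm : ∀ j ∈ Finset.univ.filter (fun j => (k j : ℕ) + 1 < p),
        σ (up k j) ^ p * Gm a c b (up k j) k =
          (a / c) ^ wf k * ((((k j : ℕ) + 1) * n j : ℕ) : L) * (-b j / c) := by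
      intro j hj'
      have hjp := (Finset.mem_filter.1 hj').2
      rw [top_frob b a c ha0 hc0 σ d hd hfix (up k j) (by rw [wf_up k hjp, hk]), hn j hjp,
        Gm_succ a c b (up k j) k j (up_self k hjp) (fun i hi' => up_ne k hi')]
      push_cast
      ring
    have h2 := hfix k
    rw [hsum, Finset.sum_congr rfl hterm, Gm_self, ← hk, pow_succ] at h2
    have hfilt : ∑ i, (((if (k i : ℕ) + 1 < p then ((k i : ℕ) + 1) * n i else 0 : ℕ) : ℕ) : L) * b i =
        ∑ j ∈ Finset.univ.filter (fun j => (k j : ℕ) + 1 < p), ((((k j : ℕ) + 1) * n j : ℕ) : L) * b j := by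
      rw [Finset.sum_filter]
      refine Finset.sum_congr rfl fun i _ => ?_
      split_ifs
      · rfl
      · simp
    show c * σ k ^ p = a * σ k +
      ∑ i, (((if (k i : ℕ) + 1 < p then ((k i : ℕ) + 1) * n i else 0 : ℕ) : ℕ) : L) * b i
    rw [hfilt]
    set Q : L := (a / c) ^ wf k with hQ
    have hQ1 : (c / a) ^ wf k * Q = 1 := by
      rw [hQ, ← mul_pow, div_mul_div_comm, mul_comm c a, div_self (mul_ne_zero ha0 hc0), one_pow]
    have h3 : ∑ j ∈ Finset.univ.filter (fun j => (k j : ℕ) + 1 < p),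
        Q * ((((k j : ℕ) + 1) * n j : ℕ) : L) * (-b j / c) =
        - (Q / c) * ∑ j ∈ Finset.univ.filter (fun j => (k j : ℕ) + 1 < p),
          ((((k j : ℕ) + 1) * n j : ℕ) : L) * b j := by
      rw [Finset.mul_sum]
      refine Finset.sum_congr rfl fun j _ => ?_
      field_simp
    rw [h3] at h2
    set S : L := ∑ j ∈ Finset.univ.filter (fun j => (k j : ℕ) + 1 < p),
      ((((k j : ℕ) + 1) * n j : ℕ) : L) * b j with hS
    have e0' : a * σ k = a * ((c / a) ^ wf k * (c / a) * (σ k ^ p * Q + -(Q / c) * S)) :=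
      congrArg (fun y => a * y) h2.symm
    rw [e0']
    have e1 : a * ((c / a) ^ wf k * (c / a) * (σ k ^ p * Q + -(Q / c) * S)) =
        ((c / a) ^ wf k * Q) * (c * σ k ^ p - S) := by
      field_simp
      ring
    have e2 : c * σ k ^ p = ((c / a) ^ wf k * Q) * (c * σ k ^ p - S) + S := by
      rw [hQ1]
      ring
    rw [e1]
    exact e2

end Pool.Agent.H68.OR
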