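import Pool.Agent.H68.OR.Ic

/-!
# Row ORZId (project OR, block Z): linear independence of the monomials `φ^e`

Strong induction on `N`: for all `σ` with values in `K`, `∑ σ_e φ^e = 0` and `om e ≤ N` whenever `σ e ≠ 0`
we have `σ = 0` (for `indep` take `N` = sum of all `om e`, or the maximum).
Suppose `σ ≠ 0`; `exists_max`: `A` with `σ A ≠ 0`, `om e ≤ om A` for `σ e ≠ 0`.  Put `s = σ/σ A` (so `s A = 1`),
`d = wf A`, `τ k = (c/a)^d ∑_e s_e^p Gm e k - s_k`.  Then `τ k ∈ K`, `∑ τ_k φ^k = (c/a)^d (∑ s_e φ^e)^p - ∑ s_e φ^e = 0`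
(`frob_sum`).  If `om k ≥ om A`: a nonzero term of the sum has `k ≤ e` (`Gm_eq_zero`), so
`om A ≤ om k ≤ om e ≤ om A` (`om_mono`), `k = e = A` (`om_inj`).  So `τ k = 0` for `om k > om A` (also `s_k = 0`), and
`τ A = (c/a)^d (a/c)^d - 1 = 0` (`Gm_self`).  Hence `om k < om A ≤ N` whenever `τ k ≠ 0`, so `τ = 0` by induction
(bound `om A - 1`, or state the induction with strict inequalities `om e < N`).
This is `hfix` of `top_frob`, `next_eq` for `s` (`om_wt` gives `wf e ≤ d` for `s e ≠ 0`).
If `d = 0`: `A = 0` and `s e ≠ 0` only for `wf e = 0`, `e = 0`: the relation says `1 = 0`.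
If `d ≥ 1`: some `A_j ≥ 1`; `k = Function.update A j ⟨A_j - 1, _⟩`, `wf k + 1 = d`; `next_eq` gives
`c s_k^p = a s_k + ∑ lam_i b_i` with `p ∤ lam_j`: contradiction to `hns`.
-/

namespace Pool.Agent.H68.OR

theorem indep {p : ℕ} [Fact p.Prime] {L : Type*} [Field L] [CharP L p] (K : Subfield L) {r : ℕ}
    (φ b : Fin r → L) (hb : ∀ i, b i ∈ K) (a c : L) (ha : a ∈ K) (hc : c ∈ K) (ha0 : a ≠ 0)
    (hc0 : c ≠ 0) (hφ : ∀ i, c * φ i ^ p = a * φ i - b i)
    (hns : ∀ lam : Fin r → ℕ, (∃ i, ¬ p ∣ lam i) → ∀ Y ∈ K,
      c * Y ^ p ≠ a * Y + ∑ i, (lam i : L) * b i)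
    (σ : (Fin r → Fin p) → L) (hσ : ∀ e, σ e ∈ K)
    (h0 : ∑ e, σ e * ∏ i, φ i ^ (e i : ℕ) = 0) : σ = 0 := by
  have hp : 0 < p := (Fact.out : p.Prime).pos
  have key : ∀ N : ℕ, ∀ σ : (Fin r → Fin p) → L, (∀ e, σ e ∈ K) → (∀ e, σ e ≠ 0 → om e < N) →
      ∑ e, σ e * ∏ i, φ i ^ (e i : ℕ) = 0 → σ = 0 := by
    intro N
    induction N with
    | zero =>
      intro σ _ h _
      funext e
      by_contra hne
      exact absurd (h e hne) (Nat.not_lt_zero _)
    | succ N ih =>
      intro σ hσ hN h0
      by_contra hne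
      obtain ⟨A, hA, hmax⟩ := exists_max σ hne
      obtain ⟨s, hs⟩ : ∃ s : (Fin r → Fin p) → L, s = fun e => σ e / σ A := ⟨_, rfl⟩
      have sK : ∀ e, s e ∈ K := fun e => by rw [hs]; exact K.div_mem (hσ e) (hσ A)
      have sA : s A = 1 := by rw [hs]; exact div_self hA
      have sne : ∀ e, s e ≠ 0 → om e ≤ om A := by
        intro e he
        refine hmax e fun h => he ?_
        rw [hs]
        change σ e / σ A = 0
        rw [h, zero_div]
      have s0 : ∑ e, s e * ∏ i, φ i ^ (e i : ℕ) = 0 := by
        have h1 : ∀ e ∈ (Finset.univ : Finset (Fin r → Fin p)), s e * ∏ i, φ i ^ (e i : ℕ) =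
            (σ A)⁻¹ * (σ e * ∏ i, φ i ^ (e i : ℕ)) := by
          intro e _
          rw [hs]
          change σ e / σ A * _ = _
          rw [div_eq_mul_inv]
          ring
        rw [Finset.sum_congr rfl h1, ← Finset.mul_sum, h0, mul_zero]
      obtain ⟨d, hd⟩ : ∃ d, d = wf A := ⟨_, rfl⟩
      have hdw : ∀ e, s e ≠ 0 → wf e ≤ d := fun e he => by rw [hd]; exact om_wt (sne e he)
      obtain ⟨τ, hτ⟩ : ∃ τ : (Fin r → Fin p) → L,
        τ = fun k => (c / a) ^ d * ∑ e, s e ^ p * Gm a c b e k - s k := ⟨_, rfl⟩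
      have τK : ∀ k, τ k ∈ K := by
        intro k
        rw [hτ]
        refine K.sub_mem (K.mul_mem (K.pow_mem (K.div_mem hc ha) d) ?_) (sK k)
        exact K.sum_mem fun e _ => K.mul_mem (K.pow_mem (sK e) p) (Gm_mem K a c b ha hc hb e k)
      have τ0 : ∑ k, τ k * ∏ i, φ i ^ (k i : ℕ) = 0 := by
        have h1 := frob_sum φ b a c hc0 hφ s
        rw [s0, zero_pow hp.ne'] at h1
        have h2 : ∀ k ∈ (Finset.univ : Finset (Fin r → Fin p)), τ k * ∏ i, φ i ^ (k i : ℕ) =
            (c / a) ^ d * ((∑ e, s e ^ p * Gm a c b e k) * ∏ i, φ i ^ (k i : ℕ)) -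
              s k * ∏ i, φ i ^ (k i : ℕ) := by
          intro k _
          rw [hτ]
          change ((c / a) ^ d * ∑ e, s e ^ p * Gm a c b e k - s k) * _ = _
          ring
        rw [Finset.sum_congr rfl h2, Finset.sum_sub_distrib, ← Finset.mul_sum, ← h1, s0, mul_zero,
          sub_zero]
      have τN : ∀ k, τ k ≠ 0 → om k < N := by
        intro k hk
        by_contra hkN
        apply hk
        have hAN := hN A hA
        have hAk : om A ≤ om k := by omega
        rw [hτ]
        change (c / a) ^ d * ∑ e, s e ^ p * Gm a c b e k - s k = 0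
        by_cases hkA : k = A
        · rw [hkA]
          have h1 : ∀ e ∈ (Finset.univ : Finset (Fin r → Fin p)), e ≠ A →
              s e ^ p * Gm a c b e A = 0 := by
            intro e _ heA
            by_cases hse : s e = 0
            · rw [hse, zero_pow hp.ne', zero_mul]
            · by_cases hle : ∀ i, (A i : ℕ) ≤ e i
              · exact absurd (om_inj (le_antisymm (sne e hse) (om_mono hle))) heA
              · rw [Gm_eq_zero a c b e A hle, mul_zero]
          rw [Finset.sum_eq_single_of_mem A (Finset.mem_univ A) h1, sA, one_pow, one_mul,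
            Gm_self, ← hd, ← mul_pow, div_mul_div_comm, mul_comm c a,
            div_self (mul_ne_zero ha0 hc0), one_pow, sub_self]
        · have hlt : om A < om k := lt_of_le_of_ne hAk fun h => hkA (om_inj h).symm
          have h1 : ∀ e ∈ (Finset.univ : Finset (Fin r → Fin p)),
              s e ^ p * Gm a c b e k = 0 := by
            intro e _
            by_cases hse : s e = 0
            · rw [hse, zero_pow hp.ne', zero_mul]
            · by_cases hle : ∀ i, (k i : ℕ) ≤ e i
              · have h2 := sne e hse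
                have h3 := om_mono hle
                omega
              · rw [Gm_eq_zero a c b e k hle, mul_zero]
          have h2 : s k = 0 := by
            by_contra hsk
            have := sne k hsk
            omega
          rw [Finset.sum_eq_zero h1, mul_zero, h2, sub_zero]
      have τz := ih τ τK τN τ0
      have hfix : ∀ k, (c / a) ^ d * ∑ e, s e ^ p * Gm a c b e k = s k := by
        intro k
        have h1 := congrFun τz k
        rw [hτ] at h1
        exact sub_eq_zero.1 h1
      rcases Nat.eq_zero_or_pos d with hd0 | hd0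
      · have hz : ∀ e : Fin r → Fin p, wf e ≤ 0 → ∀ i, (e i : ℕ) = 0 := by
          intro e he i
          have h1 : (e i : ℕ) ≤ wf e :=
            Finset.single_le_sum (f := fun i => (e i : ℕ)) (fun _ _ => Nat.zero_le _)
              (Finset.mem_univ i)
          omega
        have hAz := hz A (by omega)
        have h1 : ∀ e ∈ (Finset.univ : Finset (Fin r → Fin p)), e ≠ A →
            s e * ∏ i, φ i ^ (e i : ℕ) = 0 := by
          intro e _ heA
          by_cases hse : s e = 0
          · rw [hse, zero_mul]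
          · exfalso
            apply heA
            have h2 := hz e (by have := hdw e hse; omega)
            funext i
            exact Fin.ext ((h2 i).trans (hAz i).symm)
        rw [Finset.sum_eq_single_of_mem A (Finset.mem_univ A) h1, sA, one_mul] at s0
        have h2 : ∏ i, φ i ^ (A i : ℕ) = 1 := Finset.prod_eq_one fun i _ => by
          rw [hAz i, pow_zero]
        rw [h2] at s0
        exact one_ne_zero s0
      · have hex : ∃ j, 0 < (A j : ℕ) := by
          by_contra hcon
          push Not at hcon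
          have h1 : wf A = 0 := Finset.sum_eq_zero fun i _ => Nat.le_zero.1 (hcon i)
          omega
        obtain ⟨j, hj⟩ := hex
        obtain ⟨k, hk⟩ : ∃ k : Fin r → Fin p,
          k = Function.update A j ⟨(A j : ℕ) - 1, by have := (A j).isLt; omega⟩ := ⟨_, rfl⟩
        have k1 : (k j : ℕ) = (A j : ℕ) - 1 := by
          rw [hk, Function.update_self]
        have k2 : ∀ i, i ≠ j → k i = A i := by
          intro i hi
          rw [hk, Function.update_of_ne hi]
        have k3 : wf k + 1 = d := by
          rw [hd]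
          unfold wf
          rw [← Finset.add_sum_erase Finset.univ (fun i => (k i : ℕ)) (Finset.mem_univ j),
            ← Finset.add_sum_erase Finset.univ (fun i => (A i : ℕ)) (Finset.mem_univ j)]
          have h1 : ∑ x ∈ Finset.univ.erase j, (k x : ℕ) = ∑ x ∈ Finset.univ.erase j, (A x : ℕ) :=
            Finset.sum_congr rfl fun i hi => by rw [k2 i (Finset.ne_of_mem_erase hi)]
          rw [h1, k1]
          omega
        obtain ⟨lam, hlam, heq⟩ := next_eq b a c ha0 hc0 s d hdw hfix k A k3 j (by omega)
          (fun i hi => (k2 i hi).symm) sA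
        exact hns lam ⟨j, hlam⟩ (s k) (sK k) heq
  exact key (∑ e, om e + 1) σ hσ (fun e _ => Nat.lt_succ_of_le
    (Finset.single_le_sum (f := fun e => om e) (fun _ _ => Nat.zero_le _) (Finset.mem_univ e))) h0

end Pool.Agent.H68.OR
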