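import Pool.Agent.H68.OR.Defs

/-!
# Row ORZLv (project OR, block Z): the elements `x_i, u_i` of the fraction field `LL p`

* `io_inj`: `IsFractionRing.injective` (`io p` is by definition `algebraMap`).
* `charP_LL`: `charP_of_injective_ringHom` with `io p ∘ C` from `ZMod p`.
* `two_LL`: `two_ne h2` and the previous map.
* `dd_zero`, `dd_succ`, `dd_succ'`: compare coefficients or `PowerSeries.expand_mul` /`expand_expand`
  (`2^(i+1) = 2 * 2^i = 2^i * 2`).
* `dd_inj`: `coeff (2^i n) (dd i G) = coeff n G`.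
* `xL_rel`: apply `io p ∘ dd i` to `dbl_xx` : `(1+x)² dbl(x)² = 4 x`, `dd i (dbl x) = dd (i+1) x`.
* `uL_succ`: the same from `dbl_U`: `2 dbl U = U (1+x)`.
* `uL_ne`, `xL_ne`: `constCoeff_U`, `constCoeff_xx` are `1`; constant coefficient of `dd i G` is that of `G`.
* `one_add_xL_ne`: from `xL_rel` and `4 ≠ 0`, `x_i ≠ 0`.
* `hasseL`: `io p (dd i ..)` of `hasse h2`; `2 * mm p = p - 1` (`two_mm`); `dd i` is an `AlgHom`, so it commutes with
  `aeval` (`Polynomial.aeval_algHom_apply`); `dd i (lam) = 1 - (dd i x)²`.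
-/

open PowerSeries

namespace Pool.Agent.H68.OR

open Pool.Agent.H85.OT Pool.Agent.H6.OR

theorem dd_zero {R : Type*} [CommRing R] (G : R⟦X⟧) : dd R 0 G = G := by
  ext n
  rw [dd, PowerSeries.coeff_expand, pow_zero, if_pos (one_dvd n), Nat.div_one]

theorem dd_succ {R : Type*} [CommRing R] (i : ℕ) (G : R⟦X⟧) :
    dd R (i + 1) G = dd R i (dbl R G) := by
  rw [dd, dd, dbl, ← PowerSeries.expand_mul]
  congr 1

theorem dd_succ' {R : Type*} [CommRing R] (i : ℕ) (G : R⟦X⟧) :
    dd R (i + 1) G = dbl R (dd R i G) := by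
  rw [dd, dd, dbl, ← PowerSeries.expand_mul]
  ext n
  rw [PowerSeries.coeff_expand, PowerSeries.coeff_expand, pow_succ, mul_comm]

theorem dd_inj {R : Type*} [CommRing R] (i : ℕ) : Function.Injective (dd R i) := by
  intro G H h
  ext n
  have h1 := congrArg (PowerSeries.coeff (2 ^ i * n)) h
  rwa [dd, PowerSeries.coeff_expand_mul, PowerSeries.coeff_expand_mul] at h1

theorem dd_Dq {R : Type*} [CommRing R] (i : ℕ) (hi : 1 ≤ i) (G : R⟦X⟧) (n : ℕ) (hn : Odd n) :
    PowerSeries.coeff n (dd R i G) = 0 := by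
  rw [dd, PowerSeries.coeff_expand, if_neg]
  intro h
  have h1 : 2 ∣ n := (dvd_pow_self 2 (by omega)).trans h
  exact (Nat.not_even_iff_odd.2 hn) (even_iff_two_dvd.2 h1)

variable (p : ℕ) [Fact p.Prime]

theorem io_inj : Function.Injective (io p) := IsFractionRing.injective (ZMod p)⟦X⟧ (LL p)

instance charP_LL : CharP (LL p) p := by
  have h : Function.Injective ((io p).comp (PowerSeries.C (R := ZMod p))) := RingHom.injective _
  exact charP_of_injective_ringHom h p

variable {p}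

theorem two_LL (h2 : p ≠ 2) : (2 : LL p) ≠ 0 := by
  intro h
  have h1 : ((io p).comp (PowerSeries.C (R := ZMod p))) 2 =
      ((io p).comp (PowerSeries.C (R := ZMod p))) 0 := by
    rw [map_ofNat, map_zero]
    exact h
  exact two_ne h2 (RingHom.injective _ h1)

theorem xL_rel (h2 : p ≠ 2) (i : ℕ) :
    (1 + xL p i) ^ 2 * xL p (i + 1) ^ 2 = 4 * xL p i := by
  have h := congrArg (fun G => io p (dd (ZMod p) i G)) (dbl_xx (ZMod p) (two_ne h2))
  simp only [map_mul, map_pow, map_add, map_one, map_ofNat, ← dd_succ] at h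
  exact h

theorem uL_succ (h2 : p ≠ 2) (i : ℕ) : 2 * uL p (i + 1) = uL p i * (1 + xL p i) := by
  have h := congrArg (fun G => io p (dd (ZMod p) i G)) (dbl_U (ZMod p) (two_ne h2))
  simp only [map_mul, map_add, map_one, map_ofNat, ← dd_succ] at h
  exact h

theorem io_dd_ne (i : ℕ) (G : (ZMod p)⟦X⟧) (h : PowerSeries.constantCoeff G = 1) :
    io p (dd (ZMod p) i G) ≠ 0 := by
  intro h1
  have h3 : dd (ZMod p) i G = 0 := io_inj p (h1.trans (map_zero _).symm)
  have h4 : G = 0 := dd_inj i (h3.trans (map_zero _).symm)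
  rw [h4, map_zero] at h
  exact zero_ne_one h

theorem uL_ne (i : ℕ) : uL p i ≠ 0 := io_dd_ne i _ (constCoeff_U _)

theorem xL_ne (i : ℕ) : xL p i ≠ 0 := io_dd_ne i _ (constCoeff_xx _)

theorem one_add_xL_ne (h2 : p ≠ 2) (i : ℕ) : 1 + xL p i ≠ 0 := by
  intro h
  have h1 := xL_rel h2 i
  rw [h] at h1
  have h3 : (2 : LL p) * 2 * xL p i = 0 := by linear_combination -h1
  exact mul_ne_zero (mul_ne_zero (two_LL h2) (two_LL h2)) (xL_ne i) h3

theorem hasseL (h2 : p ≠ 2) (i : ℕ) : uL p i ^ (p - 1) *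
    io p (Polynomial.aeval (1 - dd (ZMod p) i (xx (ZMod p)) ^ 2) (hh p)) = 1 := by
  have h := congrArg (fun G => io p (dd (ZMod p) i G)) (hasse (p := p) h2)
  have h3 : p - 1 = 2 * mm p := by
    have := two_mm (Fact.out : p.Prime) h2
    omega
  have h4 : dd (ZMod p) i (Polynomial.aeval (lam (ZMod p)) (hh p)) =
      Polynomial.aeval (1 - dd (ZMod p) i (xx (ZMod p)) ^ 2) (hh p) := by
    rw [← Polynomial.aeval_algHom_apply, lam, map_sub, map_one, map_pow]
  simp only [map_mul, map_pow, map_one, h4] at h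
  rw [h3]
  exact h

end Pool.Agent.H68.OR
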