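import Pool.Agent.H68.OR.Lv

/-!
# Row ORZMem (project OR, block Z): membership in the subfields `EE j m`

* `io_C_mem`: `C a = ((a.val : ℕ) : F_p[[q]])` (`ZMod.natCast_zmod_val`), so `io p (C a)` is a natural number.
* `EE_mono`: `Subfield.closure_mono`.
* `xL_mem`: `Subfield.subset_closure`.
* `aeval_mem`: `io p (aeval G P) = ∑ io (C a_i) * (io G)^i` (`Polynomial.aeval_eq_sum_range`,
  `Algebra.smul_def`/`PowerSeries.smul_eq_C_mul`), all terms in `K`.
* `uL_div_mem`: induction on `i ≥ j`: `u_(i+1)/u_j = (u_i/u_j) (1 + x_i)/2` (`uL_succ`, `two_LL`).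
* `uL_inv_mem`: `hasseL`: `(u_j^(p-1))⁻¹ = io (aeval (1 - x_j²) hh) ∈ EE` (`aeval_mem`); take the power `κ`.
* `wtE_form`: `H = U^(2N) P(lam)`, `dd i H = (dd i U)^(2N) P(1 - (dd i x)²)`; so
  `io (dd i H) / u_j^(2N) = (u_i/u_j)^(2N) * io (aeval (1 - (dd i x)^2) P)`.
* `wtE_sum`: `io` of the sum divided by `u_j^N` is `∑ io (C lam_i) * (io (G i)/u_j^N)` (`Finset.sum_div`).
-/

open PowerSeries

namespace Pool.Agent.H68.OR

open Pool.Agent.H85.OT Pool.Agent.H6.OR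

variable {p : ℕ} [Fact p.Prime]

theorem io_C_mem (K : Subfield (LL p)) (a : ZMod p) : io p (PowerSeries.C a) ∈ K := by
  have h : (PowerSeries.C a : (ZMod p)⟦X⟧) = ((a.val : ℕ) : (ZMod p)⟦X⟧) := by
    rw [← map_natCast (PowerSeries.C (R := ZMod p)) a.val, ZMod.natCast_zmod_val]
  rw [h, map_natCast]
  exact natCast_mem K _

theorem EE_mono {j j' m m' : ℕ} (hj : j' ≤ j) (hm : m ≤ m') : EE p j m ≤ EE p j' m' := by
  refine Subfield.closure_mono ?_
  rintro y ⟨i, h1, h2, h3⟩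
  exact ⟨i, hj.trans h1, h2.trans hm, h3⟩

theorem xL_mem {i j m : ℕ} (hj : j ≤ i) (hm : i ≤ m) : xL p i ∈ EE p j m := by
  exact Subfield.subset_closure ⟨i, hj, hm, rfl⟩

theorem aeval_mem (K : Subfield (LL p)) (G : (ZMod p)⟦X⟧) (hG : io p G ∈ K)
    (P : Polynomial (ZMod p)) : io p (Polynomial.aeval G P) ∈ K := by
  rw [Polynomial.aeval_eq_sum_range, map_sum]
  refine sum_mem fun i _ => ?_
  rw [PowerSeries.smul_eq_C_mul, map_mul, map_pow]
  exact mul_mem (io_C_mem K _) (pow_mem hG _)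

private theorem Mem_x {j : ℕ} :
    io p (1 - dd (ZMod p) j (xx (ZMod p)) ^ 2) = 1 - xL p j ^ 2 := by
  rw [map_sub, map_one, map_pow]
  rfl

private theorem Mem_xm {i j m : ℕ} (hj : j ≤ i) (hm : i ≤ m) :
    io p (1 - dd (ZMod p) i (xx (ZMod p)) ^ 2) ∈ EE p j m := by
  rw [Mem_x]
  exact sub_mem (one_mem _) (pow_mem (xL_mem hj hm) _)

theorem uL_div_mem (h2 : p ≠ 2) {i j m : ℕ} (hj : j ≤ i) (hm : i ≤ m) :
    uL p i / uL p j ∈ EE p j m := by
  induction i, hj using Nat.le_induction with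
  | base =>
    rw [div_self (uL_ne j)]
    exact one_mem _
  | succ i hj ih =>
    have h3 := two_LL h2
    have h4 := uL_ne (p := p) j
    have h5 : uL p (i + 1) / uL p j = uL p i / uL p j * (1 + xL p i) / 2 := by
      have h6 := uL_succ h2 i
      field_simp
      linear_combination h6
    rw [h5]
    refine div_mem (mul_mem (ih (by omega)) (add_mem (one_mem _) (xL_mem hj (by omega)))) ?_
    exact_mod_cast natCast_mem (EE p j m) 2

theorem uL_inv_mem (h2 : p ≠ 2) (κ : ℕ) {j m : ℕ} (hm : j ≤ m) :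
    (uL p j ^ (κ * (p - 1)))⁻¹ ∈ EE p j m := by
  have h := hasseL h2 j
  have h3 : (uL p j ^ (κ * (p - 1)))⁻¹ =
      io p (Polynomial.aeval (1 - dd (ZMod p) j (xx (ZMod p)) ^ 2) (hh p)) ^ κ := by
    rw [mul_comm κ, pow_mul, ← inv_pow, inv_eq_of_mul_eq_one_right h]
  rw [h3]
  exact pow_mem (aeval_mem _ _ (Mem_xm le_rfl hm) _) _

theorem wtE_form (h2 : p ≠ 2) (N : ℕ) (H : (ZMod p)⟦X⟧) (hH : Mf p N H) {i j m : ℕ}
    (hj : j ≤ i) (hm : i ≤ m) : WtE p (2 * N) j m (dd (ZMod p) i H) := by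
  obtain ⟨P, _, rfl⟩ := hH
  unfold WtE
  have h3 : io p (dd (ZMod p) i (U (ZMod p) ^ (2 * N) * Polynomial.aeval (lam (ZMod p)) P)) /
      uL p j ^ (2 * N) = (uL p i / uL p j) ^ (2 * N) *
      io p (Polynomial.aeval (1 - dd (ZMod p) i (xx (ZMod p)) ^ 2) P) := by
    have h4 : dd (ZMod p) i (Polynomial.aeval (lam (ZMod p)) P) =
        Polynomial.aeval (1 - dd (ZMod p) i (xx (ZMod p)) ^ 2) P := by
      rw [← Polynomial.aeval_algHom_apply]
      congr 1
      unfold lam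
      rw [map_sub, map_one, map_pow]
    rw [map_mul, map_pow, h4, map_mul, map_pow, div_pow]
    change uL p i ^ (2 * N) * _ / uL p j ^ (2 * N) = _
    ring
  rw [h3]
  exact mul_mem (pow_mem (uL_div_mem h2 hj hm) _) (aeval_mem _ _ (Mem_xm hj hm) _)

theorem wtE_sum {ι : Type*} (s : Finset ι) (N j m : ℕ) (lam : ι → ZMod p)
    (G : ι → (ZMod p)⟦X⟧) (h : ∀ i ∈ s, WtE p N j m (G i)) :
    WtE p N j m (∑ i ∈ s, PowerSeries.C (lam i) * G i) := by
  unfold WtE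
  rw [map_sum, Finset.sum_div]
  refine sum_mem fun i hi => ?_
  rw [map_mul, mul_div_assoc]
  exact mul_mem (io_C_mem _ _) (h i hi)

end Pool.Agent.H68.OR
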