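import Pool.Agent.H68.OR.Fin
import Pool.Agent.H6.OR.An

/-!
# Block Z: the statement `NZ κ`
-/

open PowerSeries

namespace Pool.Agent.H68.OR

open Pool.Agent.H85.OT Pool.Agent.H6.OR

theorem nz (κ : ℕ) (h : 1 ≤ κ) : NZ κ := by
  intro p hp hpκ g c hc hH hD hodd r n t ht
  obtain ⟨n0, hn0, hn1⟩ := hodd
  exact PP_ne_zero κ h hpκ g c hc hH hD ⟨n0, Nat.not_even_iff_odd.1 (fun h => hn0 h.two_dvd), hn1⟩ r n t ht

end Pool.Agent.H68.OR
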